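import Pool.Agent.V11311.DV.G

/-! The law of the meeting point, part H: explicit formulas. -/

set_option autoImplicit false

namespace Pool.Agent.V11311.DV

open Finset Filter Topology Pool.Agent.V11311.PD Pool.Agent.V11311.PL Pool.Agent.V11311.FP

open Pool.Agent.Helper894.Collatz (T od T_even T_odd)

open Pool.Agent.H377R2 (iter_pos)

theorem Dsum {D : ℕ → ℝ} (hD : IsD D) {m : ℕ} (hper : ∀ j : ℕ, 0 < j → T^[j] m ≠ m) :
    ∑ e ∈ pre m, D e = D m := by
  classical
  apply le_antisymm
  · refine sum_dens_le (pre m) (fun e n => Vis n e) D (fun e _ => IsD.hasD hD e) ?_ (IsD.hasD hD m)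
      (fun e he n _ h => by rw [← mem_pre.1 he]; exact Vis.step h)
    intro e he e' he' hne n _ h1 h2
    have key : ∀ e : ℕ, T e = m → ¬ Vis m e := by
      rintro e he ⟨j, hj⟩
      apply hper (j + 1) (Nat.succ_pos j)
      rw [Function.iterate_succ_apply', hj, he]
    rcases two_pre (mem_pre.1 he) (mem_pre.1 he') hne h1 h2 with h | h
    · exact key e (mem_pre.1 he) h
    · exact key e' (mem_pre.1 he') h
  · have h1 : Tendsto (fun N : ℕ => (1 : ℝ) / (N : ℝ) + ∑ e ∈ pre m, (cN (fun n => Vis n e) N : ℝ) / N) atTop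
        (𝓝 (0 + ∑ e ∈ pre m, D e)) :=
      (tendsto_one_div_atTop_nhds_zero_nat (𝕜 := ℝ)).add (tendsto_finsetSum _ fun e _ => IsD.hasD hD e)
    rw [zero_add] at h1
    apply le_of_tendsto_of_tendsto' (IsD.hasD hD m) h1
    intro N
    rw [← sum_div, ← add_div]
    apply div_le_div_of_nonneg_right _ (Nat.cast_nonneg _)
    have h2 : cN (fun n => Vis n m) N ≤ 1 + ∑ e ∈ pre m, cN (fun n => Vis n e) N := by
      have hsub : fl (fun n => Vis n m) N ⊆ {m} ∪ (pre m).biUnion fun e => fl (fun n => Vis n e) N := by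
        intro n hn
        rw [mem_fl] at hn
        obtain ⟨h3, j, hj⟩ := hn
        rw [mem_union, mem_singleton, mem_biUnion]
        cases j with
        | zero => exact Or.inl hj
        | succ j =>
          right
          rw [Function.iterate_succ_apply'] at hj
          exact ⟨T^[j] n, mem_pre.2 hj, mem_fl.2 ⟨h3, j, rfl⟩⟩
      rw [← fl_card]
      refine (card_le_card hsub).trans ((card_union_le _ _).trans (Nat.add_le_add ?_ ?_))
      · rw [card_singleton]
      · refine card_biUnion_le.trans (le_of_eq (sum_congr rfl fun e _ => ?_))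
        rw [fl_card]
    exact_mod_cast h2

theorem pre_eq (m : ℕ) (hm : 0 < m) : pre m = if m % 3 = 2 then {2 * m, (2 * m - 1) / 3} else {2 * m} := by
  ext e
  rw [mem_pre, T_eq_iff]
  split_ifs with h
  · rw [mem_insert, mem_singleton]
    omega
  · rw [mem_singleton]
    omega

theorem pm_formula {D : ℕ → ℝ} (hD : IsD D) {m : ℕ} (hm : 0 < m) (hper : ∀ j : ℕ, 0 < j → T^[j] m ≠ m) :
    pm D m = if m % 3 = 2 then 2 * D (2 * m) * D ((2 * m - 1) / 3) else 0 := by
  have h1 := Dsum hD hper
  unfold pm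
  rw [pre_eq m hm] at h1 ⊢
  split_ifs at h1 ⊢ with h
  · have hne : 2 * m ≠ (2 * m - 1) / 3 := by omega
    rw [sum_pair hne] at h1 ⊢
    rw [← h1]
    ring
  · rw [sum_singleton] at h1 ⊢
    rw [h1]
    ring

theorem D_pos_iff {D : ℕ → ℝ} (hD : IsD D) {a : ℕ} (ha : 0 < a) : 0 < D a ↔ ¬ 3 ∣ a := by
  constructor
  · intro h h3
    rw [IsD.three hD ha h3] at h
    exact lt_irrefl _ h
  · intro h3
    obtain ⟨c, hc, hlow⟩ := D_lower
    have h1 := hlow D hD a ha h3
    have ha' : (0 : ℝ) < a := by exact_mod_cast ha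
    by_contra hcon
    push Not at hcon
    nlinarith

theorem pm_pos_iff {D : ℕ → ℝ} (hD : IsD D) {m : ℕ} (hm : 0 < m) (hper : ∀ j : ℕ, 0 < j → T^[j] m ≠ m) :
    0 < pm D m ↔ m % 9 = 2 ∨ m % 9 = 8 := by
  rw [pm_formula hD hm hper]
  split_ifs with h
  · have h1 : 0 < D (2 * m) := (D_pos_iff hD (by omega)).2 (by omega)
    have h2 : 0 < D ((2 * m - 1) / 3) ↔ ¬ 3 ∣ (2 * m - 1) / 3 := D_pos_iff hD (by omega)
    have h3 : 0 < 2 * D (2 * m) * D ((2 * m - 1) / 3) ↔ 0 < D ((2 * m - 1) / 3) := by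
      constructor
      · intro h4
        by_contra hcon
        push Not at hcon
        nlinarith
      · intro h4
        positivity
    rw [h3, h2]
    omega
  · constructor
    · intro h; exact absurd h (lt_irrefl 0)
    · intro h; omega

end Pool.Agent.V11311.DV
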