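import Pool.Agent.V11311.DV.D

/-! Divergent mass, part E: the criteria. -/

set_option autoImplicit false

namespace Pool.Agent.V11311.DV

open Finset Filter Topology Pool.Agent.V11311.PD Pool.Agent.V11311.PL Pool.Agent.V11311.FP

open Pool.Agent.Helper894.Collatz (T od T_even T_odd)

open Pool.Agent.H377R2 (iter_pos)

variable {δ : ℕ → ℝ}

theorem IsC.pos (h : IsC δ) {r : ℕ} (hr : 0 < r) : 0 < δ r := cls_pos hr (h r)

/-- a divergent trajectory exists iff the divergent mass is positive -/
theorem div_iff (h : IsC δ) {k : ℕ} (hk : 1 ≤ k) : (∃ r : ℕ, 0 < r ∧ Div r) ↔ 0 < ∑' r, W δ Div k r := by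
  have hs := W_summable h Div hk
  constructor
  · rintro ⟨n, hn, hdn⟩
    obtain ⟨r, h1, h2, _⟩ := exists_rep hn
    have h3 : Div r := hdn.meets h2.symm
    apply hs.tsum_pos (W_nonneg h _ _) r
    unfold W
    rw [if_pos ⟨h1, h3⟩]
    exact pow_pos (h.pos h1.1) k
  · intro hpos
    by_contra hcon
    push Not at hcon
    have h1 : ∀ r, W δ Div k r = 0 := by
      intro r
      unfold W
      rw [if_neg]
      rintro ⟨h2, h3⟩
      exact hcon r h2.1 h3
    simp only [h1, tsum_zero, lt_irrefl] at hpos

theorem rep_one : Rep 1 := ⟨one_pos, fun _ hn _ => hn⟩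

/-- all trajectories meet iff random trajectories meet with probability one -/
theorem coal_iff (h : IsC δ) {k : ℕ} (hk : 2 ≤ k) : (∀ n : ℕ, 0 < n → Meets n 1) ↔ ∑' r, W δ (fun _ => True) k r = 1 := by
  classical
  have hs1 := W_summable h (fun _ => True) (k := 1) le_rfl
  have hsk := W_summable h (fun _ => True) (k := k) (by omega)
  have hm := mass_one h
  constructor
  · intro hall
    have h1 : ∀ r, r ≠ 1 → ∀ j, W δ (fun _ => True) j r = 0 := by
      intro r hr j
      unfold W
      rw [if_neg]
      rintro ⟨h2, _⟩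
      exact hr (h2.eq rep_one (hall r h2.1))
    have h2 : ∀ j, ∑' r, W δ (fun _ => True) j r = W δ (fun _ => True) j 1 :=
      fun j => tsum_eq_single 1 fun r hr => h1 r hr j
    rw [h2] at hm ⊢
    unfold W at hm ⊢
    rw [if_pos ⟨rep_one, trivial⟩] at hm ⊢
    rw [pow_one] at hm
    rw [hm, one_pow]
  · intro hone n hn
    have h1 : ∑' r, (W δ (fun _ => True) 1 r - W δ (fun _ => True) k r) = 0 := by
      rw [hs1.tsum_sub hsk, hm, hone, sub_self]
    have h2 : ∀ r, 0 ≤ W δ (fun _ => True) 1 r - W δ (fun _ => True) k r := by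
      intro r
      unfold W
      split_ifs
      · rw [sub_nonneg]
        exact pow_le_pow_of_le_one (h.nonneg r) (h.le_one r) (by omega)
      · simp
    have h0 : HasSum (fun r => W δ (fun _ => True) 1 r - W δ (fun _ => True) k r) 0 := by
      rw [← h1]
      exact (hs1.sub hsk).hasSum
    have h3 := (hasSum_zero_iff_of_nonneg h2).1 h0
    have h4 : W δ (fun _ => True) 1 1 - W δ (fun _ => True) k 1 = 0 := congrFun h3 1
    have h5 : δ 1 = 1 := by
      unfold W at h4
      rw [if_pos ⟨rep_one, trivial⟩, if_pos ⟨rep_one, trivial⟩, pow_one] at h4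
      have h6 := h.pos one_pos
      have h7 := h.le_one 1
      by_contra hne
      have h8 : δ 1 < 1 := lt_of_le_of_ne h7 hne
      have h9 : δ 1 ^ k ≤ δ 1 ^ 2 := pow_le_pow_of_le_one h6.le h7 hk
      nlinarith
    obtain ⟨r, g1, g2, _⟩ := exists_rep hn
    by_cases hr : r = 1
    · rw [← hr]; exact g2
    · exfalso
      have g3 := h.sum_le {1, r} (by
        intro s hs
        rw [mem_insert, mem_singleton] at hs
        rcases hs with rfl | rfl
        · exact rep_one
        · exact g1)
      rw [sum_pair (Ne.symm hr), h5] at g3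
      have := h.pos g1.1
      linarith

end Pool.Agent.V11311.DV
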