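import Pool.Agent.V11311.DV.H

/-! The densities of the predecessors of large integers. -/

set_option autoImplicit false

namespace Pool.Agent.V11311.DV

open Finset Filter Topology Pool.Agent.V11311.PD Pool.Agent.V11311.PL Pool.Agent.V11311.FP

open Pool.Agent.Helper894.Collatz (T od T_even T_odd)

open Pool.Agent.H377R2 (iter_pos)

variable {δ D : ℕ → ℝ}

theorem meets_of_vis {n a : ℕ} (h : Vis n a) : Meets n a := by
  obtain ⟨j, hj⟩ := h
  exact ⟨j, 0, hj⟩

theorem cls_class (h : IsC δ) {r s : ℕ} (hm : Meets r s) : δ r = δ s := by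
  apply tendsto_nhds_unique (h r)
  exact HasD.congr (h s) fun n _ => ⟨fun h1 => h1.trans hm.symm, fun h1 => h1.trans hm⟩

/-- the densities of the predecessors along a trajectory tend to the density of the class -/
theorem D_traj (h : IsC δ) (hD : IsD D) (r : ℕ) : Tendsto (fun j : ℕ => D (T^[j] r)) atTop (𝓝 (δ r)) := by
  classical
  have hle : ∀ j : ℕ, D (T^[j] r) ≤ δ r := by
    intro j
    refine HasD.mono (fun n _ hv => ?_) (IsD.hasD hD (T^[j] r)) (h r)
    exact (meets_of_vis hv).trans (Meets.of_iter j r).symm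
  apply tendsto_order.2
  refine ⟨fun a ha => ?_, fun a ha => Eventually.of_forall fun j => (hle j).trans_lt ha⟩
  set ε := (δ r - a) / 2 with hε
  have hε0 : 0 < ε := by rw [hε]; linarith
  obtain ⟨Y, hY⟩ := (reach_one ε hε0).exists
  obtain ⟨l, hl⟩ := fp_dens Y (fun _ => True)
  have hl' : HasD (fun n => ∃ z, Fp Y n z) l := HasD.congr hl fun n _ => by simp
  have h1 := hY l hl'
  -- a bound for the places where the trajectories merge
  have hex : ∀ z : ℕ, ∃ b : ℕ, Meets z r → ∀ j, b ≤ j → Vis z (T^[j] r) := by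
    intro z
    by_cases hz : Meets z r
    · obtain ⟨i, j0, hij⟩ := hz
      refine ⟨j0, fun _ j hj => ⟨j - j0 + i, ?_⟩⟩
      rw [Function.iterate_add_apply, hij, ← Function.iterate_add_apply, Nat.sub_add_cancel hj]
    · exact ⟨0, fun h => absurd h hz⟩
  choose b hb using hex
  filter_upwards [eventually_ge_atTop (∑ z ∈ range (Y + 1), b z)] with j hj
  have h2 : δ r ≤ (1 - l) + D (T^[j] r) := by
    have h3 : Tendsto (fun N : ℕ => (cN (fun n => ¬ ∃ z, Fp Y n z) N : ℝ) / N + (cN (fun n => Vis n (T^[j] r)) N : ℝ) / N)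
        atTop (𝓝 ((1 - l) + D (T^[j] r))) := (not_dens hl').add (IsD.hasD hD _)
    apply le_of_tendsto_of_tendsto' (h r) h3
    intro N
    rw [← add_div]
    apply div_le_div_of_nonneg_right _ (Nat.cast_nonneg _)
    have h4 : cN (fun n => Meets n r) N ≤ cN (fun n => ¬ ∃ z, Fp Y n z) N + cN (fun n => Vis n (T^[j] r)) N := by
      rw [← fl_card, ← fl_card, ← fl_card]
      refine (card_le_card ?_).trans (card_union_le _ _)
      intro n hn
      rw [mem_fl] at hn
      rw [mem_union, mem_fl, mem_fl]
      by_cases h5 : ∃ z, Fp Y n z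
      · right
        refine ⟨hn.1, ?_⟩
        obtain ⟨z, hz⟩ := h5
        obtain ⟨t, g1, g2, g3⟩ := hz
        have g4 : Meets z r := by
          rw [← g1]
          exact (Meets.of_iter t n).symm.trans hn.2
        have g5 : b z ≤ j := (single_le_sum (f := b) (fun _ _ => Nat.zero_le _) (mem_range.2 (by omega))).trans hj
        obtain ⟨s, hs⟩ := hb z g4 j g5
        exact ⟨s + t, by rw [Function.iterate_add_apply, g1, hs]⟩
      · left
        exact ⟨hn.1, h5⟩
    exact_mod_cast h4
  have h3 : 2 * ε = δ r - a := by rw [hε]; ring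
  linarith

/-- the densities of the predecessors of large integers -/
theorem D_large (h : IsC δ) (hD : IsD D) (ε : ℝ) (hε : 0 < ε) : ∀ᶠ a : ℕ in atTop,
    D a ≤ ε ∨ Div a ∧ D a ≤ δ a ∧ D a ≤ δ a + ε := by
  classical
  set η := ε / 2 with hη
  have hη0 : 0 < η := by positivity
  obtain ⟨Y, hY, hYa⟩ := ((reach_one η hη0).and (atoms η hη0)).exists
  obtain ⟨l, hl⟩ := fp_dens Y (fun _ => True)
  have hl' : HasD (fun n => ∃ z, Fp Y n z) l := HasD.congr hl fun n _ => by simp
  have h1 := hY l hl'
  have hB : ∀ b : ℕ, ∃ B : ℕ, ¬ Div b → ∀ j, T^[j] b ≤ B := by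
    intro b
    by_cases hb : Div b
    · exact ⟨0, fun h => absurd hb h⟩
    · obtain ⟨B, hB⟩ := bdd_of_not_div hb
      exact ⟨B, fun _ => hB⟩
  choose B hB using hB
  filter_upwards [eventually_gt_atTop (∑ b ∈ range (Y + 1), B b)] with a ha
  by_cases hd : Div a
  · right
    have h2 : D a ≤ δ a := HasD.mono (fun n _ hv => meets_of_vis hv) (IsD.hasD hD a) (h a)
    exact ⟨hd, h2, by linarith⟩
  · left
    -- all visits of `a` are before the first passage
    have hkey : ∀ n z : ℕ, Fp Y n z → Vis n a → Fp Y a z := by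
      intro n z hz hv
      rcases fp_split hz hv with h2 | ⟨s, hs⟩
      · exact h2
      · exfalso
        have hzY : z ≤ Y := by
          obtain ⟨_, _, h, _⟩ := hz
          exact h
        have h3 : ¬ Div z := by
          intro h4
          apply hd
          apply h4.meets
          rw [← hs]
          exact (Meets.of_iter s z).symm
        have h4 := hB z h3 s
        rw [hs] at h4
        have h5 : B z ≤ ∑ b ∈ range (Y + 1), B b :=
          single_le_sum (f := B) (fun _ _ => Nat.zero_le _) (mem_range.2 (by omega))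
        omega
    by_cases hex : ∃ z, Fp Y a z
    · obtain ⟨z, hz⟩ := hex
      obtain ⟨c, hc⟩ := fp_dens Y (fun z' => z' = z)
      have hc' : HasD (fun n => Fp Y n z) c := by
        refine HasD.congr hc fun n _ => ?_
        constructor
        · rintro ⟨z', h1, rfl⟩; exact h1
        · intro h1; exact ⟨z, h1, rfl⟩
      have hcη := hYa z c hc'
      have h3 : Tendsto (fun N : ℕ => (cN (fun n => ¬ ∃ z, Fp Y n z) N : ℝ) / N + (cN (fun n => Fp Y n z) N : ℝ) / N)
          atTop (𝓝 ((1 - l) + c)) := (not_dens hl').add hc'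
      have h4 : D a ≤ (1 - l) + c := by
        apply le_of_tendsto_of_tendsto' (IsD.hasD hD a) h3
        intro N
        rw [← add_div]
        apply div_le_div_of_nonneg_right _ (Nat.cast_nonneg _)
        have h4 : cN (fun n => Vis n a) N ≤ cN (fun n => ¬ ∃ z, Fp Y n z) N + cN (fun n => Fp Y n z) N := by
          rw [← fl_card, ← fl_card, ← fl_card]
          refine (card_le_card ?_).trans (card_union_le _ _)
          intro n hn
          rw [mem_fl] at hn
          rw [mem_union, mem_fl, mem_fl]
          by_cases h5 : ∃ z, Fp Y n z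
          · right
            obtain ⟨z', hz'⟩ := h5
            have h6 := hkey n z' hz' hn.2
            rw [hz.unique h6]
            exact ⟨hn.1, hz'⟩
          · left
            exact ⟨hn.1, h5⟩
        exact_mod_cast h4
      have h5 : ε = η + η := by rw [hη]; ring
      linarith
    · have h4 : D a ≤ 1 - l := by
        refine HasD.mono (fun n _ hv => ?_) (IsD.hasD hD a) (not_dens hl')
        rintro ⟨z, hz⟩
        exact hex ⟨z, hkey n z hz hv⟩
      have h5 : ε = η + η := by rw [hη]; ring
      linarith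

/-- the densities of the predecessors tend to zero iff there is no divergent trajectory -/
theorem D_zero_iff (h : IsC δ) (hD : IsD D) : Tendsto D atTop (𝓝 0) ↔ ¬ ∃ r : ℕ, 0 < r ∧ Div r := by
  constructor
  · rintro h0 ⟨r, hr, hd⟩
    have h1 : Tendsto (fun j : ℕ => D (T^[j] r)) atTop (𝓝 0) := h0.comp hd
    have h2 := tendsto_nhds_unique h1 (D_traj h hD r)
    exact (h.pos hr).ne h2
  · intro hno
    apply tendsto_order.2
    refine ⟨fun a ha => Eventually.of_forall fun j => ha.trans_le (hD.nonneg j), fun a ha => ?_⟩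
    filter_upwards [D_large h hD (a / 2) (by positivity), eventually_gt_atTop 0] with b hb hb0
    rcases hb with hb | ⟨hb, _⟩
    · linarith
    · exact absurd ⟨b, hb0, hb⟩ hno

/-- the upper limit of the densities of the predecessors -/
theorem D_limsup (h : IsC δ) (hD : IsD D) :
    limsup D atTop = sSup {t : ℝ | ∃ r : ℕ, 0 < r ∧ Div r ∧ t = δ r} := by
  set S := {t : ℝ | ∃ r : ℕ, 0 < r ∧ Div r ∧ t = δ r} with hS
  have hb : BddAbove S := ⟨1, by
    rintro t ⟨r, _, _, rfl⟩
    exact h.le_one r⟩
  have hS0 : 0 ≤ sSup S := Real.sSup_nonneg (by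
    rintro t ⟨r, _, _, rfl⟩
    exact h.nonneg r)
  have hle1 : ∀ a, D a ≤ 1 := fun a => HasD.mono (fun _ _ _ => trivial) (IsD.hasD hD a) HasD_true
  have hbd : IsBoundedUnder (· ≤ ·) atTop D := isBoundedUnder_of ⟨1, hle1⟩
  have hcb : IsCoboundedUnder (· ≤ ·) atTop D := (isBoundedUnder_of ⟨0, fun a => hD.nonneg a⟩ : IsBoundedUnder (· ≥ ·) atTop D).isCoboundedUnder_le
  apply le_antisymm
  · apply le_of_forall_pos_le_add
    intro ε hε
    apply limsup_le_of_le hcb
    filter_upwards [D_large h hD ε hε, eventually_gt_atTop 0] with a ha ha0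
    rcases ha with ha | ⟨hd, ha, _⟩
    · linarith
    · have := le_csSup hb (show δ a ∈ S from ⟨a, ha0, hd, rfl⟩)
      linarith
  · apply Real.sSup_le
    · rintro t ⟨r, hr, hd, rfl⟩
      apply le_of_forall_lt
      intro c hc
      obtain ⟨c', hc1, hc2⟩ := exists_between hc
      refine lt_of_lt_of_le hc1 (le_limsup_of_frequently_le ?_ hbd)
      have h1 : ∀ᶠ j : ℕ in atTop, c' ≤ D (T^[j] r) := by
        filter_upwards [(D_traj h hD r).eventually (lt_mem_nhds hc2)] with j hj using hj.le
      exact hd.frequently h1.frequently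
    · apply le_limsup_of_frequently_le _ hbd
      exact (Eventually.of_forall fun a => hD.nonneg a).frequently

end Pool.Agent.V11311.DV
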