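import Pool.Agent.V11311.FP.V

/-! Divergent mass, part A: the first passage place has no large atoms. -/

set_option autoImplicit false

namespace Pool.Agent.V11311.DV

open Finset Filter Topology MeasureTheory Pool.Agent.V11311.PD Pool.Agent.V11311.PL Pool.Agent.V11311.FP

open Pool.Agent.Helper894.Collatz (T od)

open Pool.Agent.H377R2 (iter_pos)

theorem int_q {q : ℝ → ℝ} (hq : ∀ v, Tendsto (fun K => qK K v) atTop (𝓝 (q v))) (b : ℝ) :
    IntegrableOn (fun v => q v / v) (Set.Ioc 1 b) := by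
  have h0 : ∀ᵐ v ∂(volume.restrict (Set.Ioc 1 b)), Tendsto (fun K => gI K v) atTop (𝓝 (q v / v)) := by
    refine (ae_restrict_iff' measurableSet_Ioc).2 (Eventually.of_forall fun v hv => ?_)
    have hv0 : 0 < v := by linarith [hv.1]
    refine ((hq v).div_const v).congr fun K => ?_
    rw [gI_eq hv0]
  have h1 : AEStronglyMeasurable (fun v => q v / v) (volume.restrict (Set.Ioc 1 b)) :=
    aestronglyMeasurable_of_tendsto_ae atTop (fun K => (gI_meas K).aestronglyMeasurable) h0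
  refine Integrable.mono' (g := fun _ => (1 : ℝ)) (integrable_const 1) h1 ?_
  refine (ae_restrict_iff' measurableSet_Ioc).2 (Eventually.of_forall fun v hv => ?_)
  have hv0 : 0 < v := by linarith [hv.1]
  have h2 : 0 ≤ q v := ge_of_tendsto' (hq v) fun K => qK_nonneg K v
  have h3 : q v ≤ 1 := le_of_tendsto' (hq v) fun K => qK_le_one K v
  rw [Real.norm_of_nonneg (div_nonneg h2 hv0.le), div_le_one hv0]
  exact h3.trans hv.1.le

theorem Fq_inc {q : ℝ → ℝ} (hq : ∀ v, Tendsto (fun K => qK K v) atTop (𝓝 (q v))) {u u' : ℝ} (h : u ≤ u') :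
    Fq q u' - Fq q u ≤ 2 / Real.log (4 / 3) * (u' - u) := by
  have hl43 : 0 < Real.log (4 / 3) := Real.log_pos (by norm_num)
  have hsub : Set.Ioc (1 : ℝ) (2 * u) ⊆ Set.Ioc 1 (2 * u') := Set.Ioc_subset_Ioc_right (by linarith)
  have h1 : Lq q u' - Lq q u = ∫ v in Set.Ioc 1 (2 * u') \ Set.Ioc 1 (2 * u), q v / v := by
    unfold Lq
    rw [integral_diff measurableSet_Ioc (int_q hq _) hsub]
  have h2 : ∫ v in Set.Ioc 1 (2 * u') \ Set.Ioc 1 (2 * u), q v / v ≤ 2 * (u' - u) := by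
    have hm : MeasurableSet (Set.Ioc (1 : ℝ) (2 * u') \ Set.Ioc 1 (2 * u)) := measurableSet_Ioc.diff measurableSet_Ioc
    have hs2 : Set.Ioc (1 : ℝ) (2 * u') \ Set.Ioc 1 (2 * u) ⊆ Set.Ioc (2 * u) (2 * u') := by
      intro v hv
      refine ⟨?_, hv.1.2⟩
      by_contra hcon
      exact hv.2 ⟨hv.1.1, not_lt.1 hcon⟩
    have hfin : volume (Set.Ioc (1 : ℝ) (2 * u') \ Set.Ioc 1 (2 * u)) ≠ ⊤ :=
      ((measure_mono hs2).trans_lt (by rw [Real.volume_Ioc]; exact ENNReal.ofReal_lt_top)).ne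
    calc ∫ v in Set.Ioc 1 (2 * u') \ Set.Ioc 1 (2 * u), q v / v
        ≤ ∫ v in Set.Ioc (1 : ℝ) (2 * u') \ Set.Ioc 1 (2 * u), (1 : ℝ) := by
          apply setIntegral_mono_on ((int_q hq _).mono_set Set.diff_subset)
            ((integrableOn_const_iff (C := (1 : ℝ))).2 (Or.inr hfin.lt_top)) hm
          intro v hv
          have hv0 : 0 < v := by linarith [hv.1.1]
          have h3 : q v ≤ 1 := le_of_tendsto' (hq v) fun K => qK_le_one K v
          rw [div_le_one hv0]
          exact h3.trans hv.1.1.le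
      _ ≤ 2 * (u' - u) := by
          rw [setIntegral_const, smul_eq_mul, mul_one]
          have h4 : volume.real (Set.Ioc (1 : ℝ) (2 * u') \ Set.Ioc 1 (2 * u)) ≤ volume.real (Set.Ioc (2 * u) (2 * u')) :=
            measureReal_mono hs2 (by rw [Real.volume_Ioc]; exact ENNReal.ofReal_ne_top)
          rw [Real.volume_real_Ioc_of_le (by linarith)] at h4
          linarith
  unfold Fq
  rw [← mul_sub, h1]
  calc 1 / Real.log (4 / 3) * ∫ v in Set.Ioc 1 (2 * u') \ Set.Ioc 1 (2 * u), q v / v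
      ≤ 1 / Real.log (4 / 3) * (2 * (u' - u)) := mul_le_mul_of_nonneg_left h2 (by positivity)
    _ = _ := by ring

theorem two_le {P P' Q : ℕ → Prop} (hdis : ∀ n, 0 < n → P n → ¬ P' n) (hP : ∀ n, 0 < n → P n → Q n)
    (hP' : ∀ n, 0 < n → P' n → Q n) {a b c : ℝ} (h1 : HasD P a) (h2 : HasD P' b) (h3 : HasD Q c) : a + b ≤ c := by
  classical
  apply le_of_tendsto_of_tendsto' (h1.add h2) h3
  intro N
  rw [← add_div]
  apply div_le_div_of_nonneg_right _ (Nat.cast_nonneg _)
  have h4 : cN P N + cN P' N ≤ cN Q N := by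
    unfold cN
    rw [← card_union_of_disjoint]
    · apply card_le_card
      intro n hn
      rw [mem_union, mem_filter, mem_filter, mem_Icc] at hn
      rw [mem_filter, mem_Icc]
      rcases hn with hn | hn
      · exact ⟨hn.1, hP n (by omega) hn.2⟩
      · exact ⟨hn.1, hP' n (by omega) hn.2⟩
    · rw [disjoint_left]
      intro n hn hn'
      rw [mem_filter, mem_Icc] at hn hn'
      exact hdis n (by omega) hn.2 hn'.2
  exact_mod_cast h4

/-- the density of the integers whose trajectory has a term `≤ Y` -/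
theorem reach_one (ε : ℝ) (hε : 0 < ε) : ∀ᶠ Y : ℕ in atTop, ∀ l : ℝ, HasD (fun n => ∃ z, Fp Y n z) l → 1 - ε ≤ l := by
  obtain ⟨q, hq⟩ := q_exists
  choose δ hδ using fun Y : ℕ => fp_dens Y (fun z => (z : ℝ) ≤ 1 * Y ∧ z % 1 = 0)
  have h1 := law hq (M := 1) (r := 0) one_pos (by norm_num) zero_le_one le_rfl hδ
  rw [Nat.cast_one, div_one, Fq_one_eq hq] at h1
  filter_upwards [h1.eventually (lt_mem_nhds (by linarith : 1 - ε < 1))] with Y hY l hl
  have h2 : l = δ Y := by
    apply tendsto_nhds_unique hl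
    apply HasD.congr (hδ Y)
    intro n _
    constructor
    · rintro ⟨z, hz, _⟩
      exact ⟨z, hz⟩
    · rintro ⟨z, hz⟩
      have h3 : z ≤ Y := by
        obtain ⟨t, _, h4, _⟩ := hz
        exact h4
      exact ⟨z, hz, by rw [one_mul]; exact_mod_cast h3, Nat.mod_one z⟩
  rw [h2]
  exact hY.le

/-- no large atoms -/
theorem atoms (ε : ℝ) (hε : 0 < ε) : ∀ᶠ Y : ℕ in atTop, ∀ z : ℕ, ∀ l : ℝ, HasD (fun n => Fp Y n z) l → l ≤ ε := by
  classical
  obtain ⟨q, hq⟩ := q_exists
  have hl43 : 0 < Real.log (4 / 3) := Real.log_pos (by norm_num)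
  obtain ⟨L, hL⟩ : ∃ L : ℕ, 2 / Real.log (4 / 3) * (2 / ε) < L := exists_nat_gt _
  have hL0 : (0 : ℝ) < L := lt_of_le_of_lt (by positivity) hL
  have hex : ∀ i : ℕ, ∀ Y : ℕ, ∃ l : ℝ, HasD (fun n => ∃ z, Fp Y n z ∧ ((z : ℝ) ≤ (i / L : ℝ) * Y ∧ z % 1 = 0)) l :=
    fun i Y => fp_dens Y (fun z => (z : ℝ) ≤ (i / L : ℝ) * Y ∧ z % 1 = 0)
  choose δ hδ using hex
  have h1 : ∀ i ∈ range (L + 1), ∀ᶠ Y : ℕ in atTop, |δ i Y - Fq q (i / L)| ≤ ε / 4 := by
    intro i hi
    have hi' : (i : ℝ) ≤ L := by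
      have := mem_range.1 hi
      exact_mod_cast Nat.lt_succ_iff.1 this
    have h2 := law hq (M := 1) (r := 0) one_pos (by norm_num) (u := (i / L : ℝ)) (by positivity)
      (by rw [div_le_one hL0]; exact hi') (hδ i)
    rw [Nat.cast_one, div_one] at h2
    have h3 := Metric.tendsto_nhds.1 h2 (ε / 4) (by positivity)
    filter_upwards [h3] with Y hY
    rw [Real.dist_eq] at hY
    exact hY.le
  have h2 : ∀ᶠ Y : ℕ in atTop, ∀ i ∈ range (L + 1), |δ i Y - Fq q (i / L)| ≤ ε / 4 :=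
    (eventually_all_finset (range (L + 1))).2 h1
  filter_upwards [h2, eventually_ge_atTop 1] with Y hY hY1 z l hl
  have hY0 : (0 : ℝ) < Y := by
    have : 0 < Y := hY1
    exact_mod_cast this
  by_cases hz : 0 < z ∧ z ≤ Y
  · obtain ⟨hz0, hzY⟩ := hz
    -- the cell of z
    obtain ⟨i, hi⟩ : ∃ i : ℕ, i = ⌈(z : ℝ) * L / Y⌉₊ - 1 := ⟨_, rfl⟩
    have hz0R : (0 : ℝ) < z := by exact_mod_cast hz0
    have hzYR : (z : ℝ) ≤ Y := by exact_mod_cast hzY
    have hc0 : 0 < ⌈(z : ℝ) * L / Y⌉₊ := Nat.ceil_pos.2 (by positivity)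
    have hc1 : (z : ℝ) * L / Y ≤ ((i + 1 : ℕ) : ℝ) := by
      rw [hi, Nat.sub_add_cancel hc0]
      exact Nat.le_ceil _
    have hc2 : (i : ℝ) < (z : ℝ) * L / Y := by
      have h3 := Nat.ceil_lt_add_one (by positivity : 0 ≤ (z : ℝ) * L / Y)
      have h4 : (i : ℝ) + 1 = (⌈(z : ℝ) * L / Y⌉₊ : ℝ) := by
        have : i + 1 = ⌈(z : ℝ) * L / Y⌉₊ := by omega
        exact_mod_cast this
      linarith
    have hc3 : i < L := by
      have h3 : (z : ℝ) * L / Y ≤ L := by
        rw [div_le_iff₀ hY0]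
        nlinarith
      have : (i : ℝ) < L := hc2.trans_le h3
      exact_mod_cast this
    have h3 : l + δ i Y ≤ δ (i + 1) Y := by
      refine two_le ?_ ?_ ?_ hl (hδ i Y) (hδ (i + 1) Y)
      · rintro n _ h4 ⟨z', h5, h6, _⟩
        have := h4.unique h5
        subst this
        have h7 : (z : ℝ) * L / Y ≤ i := by
          rw [div_le_iff₀ hY0]
          rw [div_mul_eq_mul_div, le_div_iff₀ hL0] at h6
          exact h6
        linarith
      · intro n _ h4
        refine ⟨z, h4, ?_, Nat.mod_one z⟩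
        rw [div_mul_eq_mul_div, le_div_iff₀ hL0]
        rw [div_le_iff₀ hY0] at hc1
        exact hc1
      · rintro n _ ⟨z', h5, h6, _⟩
        refine ⟨z', h5, h6.trans ?_, Nat.mod_one z'⟩
        apply mul_le_mul_of_nonneg_right _ hY0.le
        apply div_le_div_of_nonneg_right _ hL0.le
        push_cast
        linarith
    have h4 := (abs_le.1 (hY i (mem_range.2 (by omega)))).1
    have h5 := (abs_le.1 (hY (i + 1) (mem_range.2 (by omega)))).2
    have h6 := Fq_inc hq (u := (i / L : ℝ)) (u' := ((i + 1 : ℕ) / L : ℝ)) (by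
      apply div_le_div_of_nonneg_right _ hL0.le
      push_cast
      linarith)
    have h7 : 2 / Real.log (4 / 3) * (((i + 1 : ℕ) / L : ℝ) - (i / L : ℝ)) ≤ ε / 2 := by
      have h8 : (((i + 1 : ℕ) / L : ℝ) - (i / L : ℝ)) = 1 / L := by
        push_cast
        ring
      rw [h8, mul_one_div, div_le_iff₀ hL0]
      have h9 : 2 / Real.log (4 / 3) = ε / 2 * (2 / Real.log (4 / 3) * (2 / ε)) := by
        field_simp
      rw [h9]
      exact mul_le_mul_of_nonneg_left hL.le (by positivity)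
    linarith
  · have h3 : l = 0 := by
      apply tendsto_nhds_unique hl
      have h4 : ∀ N : ℕ, (0 : ℝ) = (cN (fun n => Fp Y n z) N : ℝ) / N := by
        intro N
        have h5 : cN (fun n => Fp Y n z) N = 0 := by
          unfold cN
          rw [card_eq_zero, filter_eq_empty_iff]
          rintro n hn ⟨t, h6, h7, _⟩
          rw [mem_Icc] at hn
          apply hz
          refine ⟨?_, h7⟩
          rw [← h6]
          exact iter_pos (by omega) t
        rw [h5, Nat.cast_zero, zero_div]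
      exact tendsto_const_nhds.congr h4
    rw [h3]
    exact hε.le

end Pool.Agent.V11311.DV
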