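import Pool.Agent.V11311.DV.A

/-! Divergent mass, part B: the classes of coalescing trajectories. -/

set_option autoImplicit false

namespace Pool.Agent.V11311.DV

open Finset Filter Topology Pool.Agent.V11311.PD Pool.Agent.V11311.PL Pool.Agent.V11311.FP

open Pool.Agent.Helper894.Collatz (T od T_even T_odd)

open Pool.Agent.H377R2 (iter_pos)

/-- the trajectories of `n` and `r` have a common term -/
def Meets (n r : ℕ) : Prop := ∃ i j : ℕ, T^[i] n = T^[j] r

theorem Meets.refl (n : ℕ) : Meets n n := ⟨0, 0, rfl⟩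

theorem Meets.symm {n r : ℕ} (h : Meets n r) : Meets r n := by
  obtain ⟨i, j, h⟩ := h
  exact ⟨j, i, h.symm⟩

theorem Meets.trans {n r s : ℕ} (h : Meets n r) (h' : Meets r s) : Meets n s := by
  obtain ⟨i, j, h⟩ := h
  obtain ⟨k, l, h'⟩ := h'
  refine ⟨k + i, j + l, ?_⟩
  rw [Function.iterate_add_apply, h, ← Function.iterate_add_apply, add_comm k j, Function.iterate_add_apply, h',
    ← Function.iterate_add_apply]

theorem meets_T (n r : ℕ) : Meets n r ↔ Meets (T n) r := by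
  constructor
  · rintro ⟨i, j, h⟩
    refine ⟨i, j + 1, ?_⟩
    rw [← Function.iterate_succ_apply, Function.iterate_succ_apply', h, ← Function.iterate_succ_apply' T j r]
  · rintro ⟨i, j, h⟩
    exact ⟨i + 1, j, h⟩

theorem Meets.of_iter (i n : ℕ) : Meets n (T^[i] n) := ⟨i, 0, rfl⟩

/-- `r` is the smallest element of its class -/
def Rep (r : ℕ) : Prop := 0 < r ∧ ∀ n : ℕ, 0 < n → Meets n r → r ≤ n

theorem exists_rep {n : ℕ} (hn : 0 < n) : ∃ r : ℕ, Rep r ∧ Meets n r ∧ r ≤ n := by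
  classical
  have hex : ∃ r : ℕ, 0 < r ∧ Meets n r := ⟨n, hn, Meets.refl n⟩
  have h := Nat.find_spec hex
  refine ⟨Nat.find hex, ⟨h.1, fun m hm h1 => ?_⟩, h.2, Nat.find_min' hex ⟨hn, Meets.refl n⟩⟩
  exact Nat.find_min' hex ⟨hm, h.2.trans h1.symm⟩

theorem Rep.eq {r s : ℕ} (hr : Rep r) (hs : Rep s) (h : Meets r s) : r = s :=
  le_antisymm (hr.2 s hs.1 h.symm) (hs.2 r hr.1 h)

/-- the trajectory tends to infinity -/
def Div (r : ℕ) : Prop := Tendsto (fun j : ℕ => T^[j] r) atTop atTop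

theorem Div.meets {n r : ℕ} (h : Div r) (hm : Meets n r) : Div n := by
  obtain ⟨i, j, hij⟩ := hm
  have h1 : Tendsto (fun m : ℕ => T^[m + j] r) atTop atTop := (tendsto_add_atTop_iff_nat j).2 h
  have h2 : Tendsto (fun m : ℕ => T^[m + i] n) atTop atTop := by
    refine h1.congr fun m => ?_
    rw [Function.iterate_add_apply, Function.iterate_add_apply, hij]
  exact (tendsto_add_atTop_iff_nat i).1 h2

theorem bdd_of_not_div {r : ℕ} (h : ¬ Div r) : ∃ B : ℕ, ∀ j : ℕ, T^[j] r ≤ B := by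
  unfold Div at h
  rw [tendsto_atTop] at h
  push Not at h
  obtain ⟨M, hM⟩ := h
  have hinf : {j : ℕ | T^[j] r < M}.Infinite := by
    rw [← Nat.frequently_atTop_iff_infinite]
    refine fun hcon => hM ?_
    filter_upwards [hcon] with j hj
    exact hj
  obtain ⟨i, _, j, _, hne, heq⟩ := hinf.exists_ne_map_eq_of_mapsTo (f := fun j => T^[j] r) (t := Set.Iio M)
    (fun j hj => hj) (Set.finite_Iio M)
  have key : ∀ i j : ℕ, i < j → T^[i] r = T^[j] r → ∃ B : ℕ, ∀ k : ℕ, T^[k] r ≤ B := by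
    intro i j hij h
    have h1 : ∀ k : ℕ, ∃ k' < j, T^[k] r = T^[k'] r := by
      intro k
      induction k using Nat.strong_induction_on with
      | _ k ih =>
        rcases lt_or_ge k j with hk | hk
        · exact ⟨k, hk, rfl⟩
        · obtain ⟨k', h2, h3⟩ := ih (k - j + i) (by omega)
          refine ⟨k', h2, ?_⟩
          rw [← h3, Function.iterate_add_apply, h, ← Function.iterate_add_apply, Nat.sub_add_cancel hk]
    refine ⟨∑ k ∈ range j, T^[k] r, fun k => ?_⟩
    obtain ⟨k', h2, h3⟩ := h1 k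
    rw [h3]
    exact single_le_sum (f := fun k => T^[k] r) (fun _ _ => Nat.zero_le _) (mem_range.2 h2)
  rcases lt_or_gt_of_ne hne with h1 | h1
  · exact key i j h1 heq
  · exact key j i h1 heq.symm

/-- the density of a class -/
theorem cls_dens (r : ℕ) : ∃ l : ℝ, HasD (fun n => Meets n r) l := by
  have hAP : AP 0 (fun n => Meets n r) := fun n _ => meets_T n r
  obtain ⟨D, hD⟩ := AP_dens hAP
  exact ⟨D, HasD.of_set (SP_nat _) hD⟩

theorem HasD.mono {P Q : ℕ → Prop} (h : ∀ n, 0 < n → P n → Q n) {a b : ℝ} (ha : HasD P a) (hb : HasD Q b) : a ≤ b := by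
  apply le_of_tendsto_of_tendsto' ha hb
  intro N
  apply div_le_div_of_nonneg_right _ (Nat.cast_nonneg _)
  exact_mod_cast cN_mono h N

theorem not_three {r : ℕ} (hr : 0 < r) : ∃ j : ℕ, ¬ 3 ∣ T^[j] r := by
  obtain ⟨e, o, ho, h⟩ := Nat.exists_eq_two_pow_mul_odd hr.ne'
  refine ⟨e + 1, ?_⟩
  rw [Function.iterate_succ_apply', h, T_two_pow]
  have h1 := T_odd (Nat.odd_iff.1 ho)
  omega

theorem cls_pos {r : ℕ} (hr : 0 < r) {l : ℝ} (hl : HasD (fun n => Meets n r) l) : 0 < l := by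
  choose D hD using Pool.Agent.V11311.PD.dens_exists
  have hD' : IsD D := hD
  obtain ⟨c, hc, hlow⟩ := D_lower
  obtain ⟨j, hj⟩ := not_three hr
  have ha : 0 < T^[j] r := iter_pos hr j
  have h1 := hlow D hD' (T^[j] r) ha hj
  have ha' : (0 : ℝ) < ((T^[j] r : ℕ) : ℝ) := by exact_mod_cast ha
  have h2 : 0 < D (T^[j] r) := by
    by_contra hcon
    push Not at hcon
    nlinarith
  refine h2.trans_le (HasD.mono ?_ (IsD.hasD hD' _) hl)
  rintro n _ ⟨i, hi⟩
  exact ⟨i, j, hi⟩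

/-- tuples in one divergent class have common large terms -/
theorem common_of_class {k : ℕ} {v : Fin k → ℕ} {r : ℕ} (h : ∀ i, Meets (v i) r) :
    ∃ b : ℕ, ∀ j, b ≤ j → ∀ i, Vis (v i) (T^[j] r) := by
  choose a b hab using h
  refine ⟨univ.sup b, fun j hj i => ⟨j - b i + a i, ?_⟩⟩
  have h1 : b i ≤ j := (le_sup (f := b) (mem_univ i)).trans hj
  rw [Function.iterate_add_apply, hab, ← Function.iterate_add_apply, Nat.sub_add_cancel h1]

theorem common_of_div {k : ℕ} {v : Fin k → ℕ} {r : ℕ} (h : ∀ i, Meets (v i) r) (hr : Div r) (x : ℕ) :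
    ∃ m : ℕ, x < m ∧ ∀ i, Vis (v i) m := by
  obtain ⟨b, hb⟩ := common_of_class h
  have h1 := (tendsto_atTop.1 hr (x + 1)).and (eventually_ge_atTop b)
  obtain ⟨j, h2, h3⟩ := h1.exists
  exact ⟨T^[j] r, by omega, hb j h3⟩

/-- if `n` passes through `m` before its first passage below `Y`, then the first passages agree -/
theorem fp_split {Y n a m : ℕ} (h : Fp Y n a) (hm : Vis n m) : Fp Y m a ∨ ∃ s : ℕ, T^[s] a = m := by
  obtain ⟨t, h1, h2, h3⟩ := h
  obtain ⟨j, hj⟩ := hm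
  rcases lt_or_ge j t with h4 | h4
  · left
    refine ⟨t - j, ?_, h2, fun i hi => ?_⟩
    · rw [← hj, ← Function.iterate_add_apply, Nat.sub_add_cancel h4.le, h1]
    · rw [← hj, ← Function.iterate_add_apply]
      exact h3 _ (by omega)
  · right
    refine ⟨j - t, ?_⟩
    rw [← h1, ← Function.iterate_add_apply, Nat.sub_add_cancel h4, hj]

/-- the key: a common large term forces a common divergent class, unless two first passages agree -/
theorem common_cases {k : ℕ} {v : Fin (k + 2) → ℕ} {Y x m a b : ℕ} (hv : ∀ i, 0 < v i)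
    (hx : ∀ c ≤ Y, ¬ Div c → ∀ j, T^[j] c ≤ x) (hm : x < m) (hvm : ∀ i, Vis (v i) m)
    (ha : Fp Y (v 0) a) (hb : Fp Y (v 1) b) (hab : a ≠ b) :
    ∃ r : ℕ, r ≤ Y ∧ Rep r ∧ Div r ∧ ∀ i, Meets (v i) r := by
  have key : ∀ i : Fin (k + 2), ∀ c : ℕ, Fp Y (v i) c → (∃ s : ℕ, T^[s] c = m) →
      ∃ r : ℕ, r ≤ Y ∧ Rep r ∧ Div r ∧ ∀ i, Meets (v i) r := by
    rintro i c hc ⟨s, hs⟩
    have hcY : c ≤ Y := by
      obtain ⟨_, _, h, _⟩ := hc
      exact h
    have hc0 : 0 < c := by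
      obtain ⟨t, h, _, _⟩ := hc
      rw [← h]
      exact iter_pos (hv i) t
    have hcd : Div c := by
      by_contra hcon
      have := hx c hcY hcon s
      omega
    obtain ⟨r, h1, h2, h3⟩ := exists_rep hc0
    refine ⟨r, h3.trans hcY, h1, hcd.meets h2.symm, fun j => ?_⟩
    obtain ⟨t, ht⟩ := hvm j
    have h4 : Meets (v j) c := ⟨t, s, by rw [ht, hs]⟩
    exact h4.trans h2
  rcases fp_split ha (hvm 0) with h1 | h1
  · rcases fp_split hb (hvm 1) with h2 | h2
    · exact absurd (h1.unique h2) hab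
    · exact key 1 b hb h2
  · exact key 0 a ha h1

end Pool.Agent.V11311.DV
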