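import Pool.Agent.V11311.DV.B

/-! Divergent mass, part C: counting tuples. -/

set_option autoImplicit false

namespace Pool.Agent.V11311.DV

open Finset Filter Topology Pool.Agent.V11311.PD Pool.Agent.V11311.PL Pool.Agent.V11311.FP

open Pool.Agent.Helper894.Collatz (T od T_even T_odd)

open Pool.Agent.H377R2 (iter_pos)

open scoped Classical in
/-- the integers up to `N` with the property `P` -/
noncomputable def fl (P : ℕ → Prop) (N : ℕ) : Finset ℕ := (Icc 1 N).filter P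

theorem fl_card (P : ℕ → Prop) (N : ℕ) : (fl P N).card = cN P N := rfl

theorem mem_fl {P : ℕ → Prop} {N n : ℕ} : n ∈ fl P N ↔ (1 ≤ n ∧ n ≤ N) ∧ P n := by
  classical
  unfold fl
  rw [mem_filter, mem_Icc]

/-- tuples in a set given by the first coordinate -/
noncomputable def box0 (k : ℕ) (A B : Finset ℕ) : Finset (Fin (k + 2) → ℕ) :=
  Fintype.piFinset (Fin.cons A fun _ => B)

noncomputable def box1 (k : ℕ) (A A' B : Finset ℕ) : Finset (Fin (k + 2) → ℕ) :=
  Fintype.piFinset (Fin.cons A (Fin.cons A' fun _ => B))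

theorem box1_card (k : ℕ) (A A' B : Finset ℕ) : (box1 k A A' B).card = A.card * (A'.card * B.card ^ k) := by
  unfold box1
  rw [Fintype.card_piFinset, Fin.prod_univ_succ, Fin.prod_univ_succ]
  simp

theorem mem_box1 {k : ℕ} {A A' B : Finset ℕ} {v : Fin (k + 2) → ℕ} :
    v ∈ box1 k A A' B ↔ v 0 ∈ A ∧ v 1 ∈ A' ∧ ∀ i : Fin k, v i.succ.succ ∈ B := by
  unfold box1
  rw [Fintype.mem_piFinset, Fin.forall_fin_succ, Fin.forall_fin_succ]
  simp only [Fin.cons_zero, Fin.cons_succ]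
  rfl

/-- the tuples with a common term `> x` -/
def SH (k x N : ℕ) : Set (Fin k → ℕ) := {v | (∀ i, 0 < v i ∧ v i ≤ N) ∧ ∃ m, x < m ∧ ∀ i, Vis (v i) m}

/-- the tuples of integers in one class -/
def SC (k N : ℕ) : Set (Fin k → ℕ) := {v | (∀ i, 0 < v i ∧ v i ≤ N) ∧ ∃ m, ∀ i, Vis (v i) m}

theorem tup_fin {k N : ℕ} {S : Set (Fin k → ℕ)} (h : ∀ v ∈ S, ∀ i, 0 < v i ∧ v i ≤ N) : S.Finite := by
  classical
  apply (Fintype.piFinset (fun _ : Fin k => Icc 1 N)).finite_toSet.subset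
  intro v hv
  rw [mem_coe, Fintype.mem_piFinset]
  intro i
  rw [mem_Icc]
  exact h v hv i

theorem cls_low {k : ℕ} (R : Finset ℕ) (hR : ∀ r ∈ R, Rep r) (N : ℕ) {S : Set (Fin (k + 2) → ℕ)}
    (hfin : S.Finite) (hS : ∀ r ∈ R, ∀ v : Fin (k + 2) → ℕ, (∀ i, (1 ≤ v i ∧ v i ≤ N) ∧ Meets (v i) r) → v ∈ S) :
    ∑ r ∈ R, cN (fun n => Meets n r) N ^ (k + 2) ≤ S.ncard := by
  classical
  have h1 : ∀ r : ℕ, cN (fun n => Meets n r) N ^ (k + 2)
      = (Fintype.piFinset (fun _ : Fin (k + 2) => fl (fun n => Meets n r) N)).card := by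
    intro r
    rw [Fintype.card_piFinset_const, fl_card]
  rw [sum_congr rfl fun r _ => h1 r, ← card_biUnion, ← Set.ncard_coe_finset]
  · apply Set.ncard_le_ncard _ hfin
    intro v hv
    rw [mem_coe, mem_biUnion] at hv
    obtain ⟨r, hr, hv⟩ := hv
    rw [Fintype.mem_piFinset] at hv
    exact hS r hr v fun i => mem_fl.1 (hv i)
  · intro r hr s hs hrs
    rw [Function.onFun, disjoint_left]
    intro w h2 h3
    rw [Fintype.mem_piFinset] at h2 h3
    have g2 := (mem_fl.1 (h2 0)).2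
    have g3 := (mem_fl.1 (h3 0)).2
    exact hrs ((hR r hr).eq (hR s hs) (g2.symm.trans g3))

/-- the count of the tuples with a common term -/
theorem SH_upper {k Y x : ℕ} (hx : ∀ c ≤ Y, ¬ Div c → ∀ j, T^[j] c ≤ x) (R : Finset ℕ)
    (hR : ∀ r : ℕ, r ≤ Y → Rep r → Div r → r ∈ R) (N : ℕ) :
    (SH (k + 2) x N).ncard ≤ 2 * (cN (fun n => ¬ ∃ z, Fp Y n z) N * N ^ (k + 1))
      + ∑ z ∈ range (Y + 1), cN (fun n => Fp Y n z) N ^ 2 * N ^ k
      + ∑ r ∈ R, cN (fun n => Meets n r) N ^ (k + 2) := by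
  classical
  set I := Icc 1 N with hI
  have hIc : I.card = N := by rw [hI, Nat.card_Icc, Nat.add_sub_cancel]
  set NR := fl (fun n => ¬ ∃ z, Fp Y n z) N with hNR
  have hsub : (SH (k + 2) x N) ⊆ ((box1 k NR I I ∪ box1 k I NR I) ∪
      ((range (Y + 1)).biUnion fun z => box1 k (fl (fun n => Fp Y n z) N) (fl (fun n => Fp Y n z) N) I) ∪
      (R.biUnion fun r => Fintype.piFinset (fun _ : Fin (k + 2) => fl (fun n => Meets n r) N)) :
        Finset (Fin (k + 2) → ℕ)) := by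
    rintro v ⟨hv, m, hm, hvm⟩
    have hvI : ∀ i, v i ∈ I := fun i => by rw [hI, mem_Icc]; exact ⟨(hv i).1, (hv i).2⟩
    rw [mem_coe, mem_union, mem_union, mem_union, mem_biUnion, mem_biUnion]
    by_cases h0 : ∃ z, Fp Y (v 0) z
    · by_cases h1 : ∃ z, Fp Y (v 1) z
      · obtain ⟨a, ha⟩ := h0
        obtain ⟨b, hb⟩ := h1
        by_cases hab : a = b
        · left; right
          subst hab
          have haY : a ≤ Y := by
            obtain ⟨_, _, h, _⟩ := ha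
            exact h
          refine ⟨a, mem_range.2 (by omega), mem_box1.2 ⟨mem_fl.2 ⟨⟨(hv 0).1, (hv 0).2⟩, ha⟩,
            mem_fl.2 ⟨⟨(hv 1).1, (hv 1).2⟩, hb⟩, fun i => hvI _⟩⟩
        · right
          obtain ⟨r, g1, g2, g3, g4⟩ := common_cases (fun i => (hv i).1) hx hm hvm ha hb hab
          refine ⟨r, hR r g1 g2 g3, ?_⟩
          rw [Fintype.mem_piFinset]
          exact fun i => mem_fl.2 ⟨⟨(hv i).1, (hv i).2⟩, g4 i⟩
      · left; left; right
        exact mem_box1.2 ⟨hvI 0, mem_fl.2 ⟨⟨(hv 1).1, (hv 1).2⟩, h1⟩, fun i => hvI _⟩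
    · left; left; left
      exact mem_box1.2 ⟨mem_fl.2 ⟨⟨(hv 0).1, (hv 0).2⟩, h0⟩, hvI 1, fun i => hvI _⟩
  have h1 := Set.ncard_le_ncard hsub (Finset.finite_toSet _)
  rw [Set.ncard_coe_finset] at h1
  refine h1.trans ((card_union_le _ _).trans (Nat.add_le_add ((card_union_le _ _).trans
    (Nat.add_le_add ((card_union_le _ _).trans ?_) ?_)) ?_))
  · rw [box1_card, box1_card, hIc, hNR, fl_card]
    apply le_of_eq
    ring
  · refine card_biUnion_le.trans (sum_le_sum fun z _ => ?_)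
    rw [box1_card, hIc, fl_card]
    apply le_of_eq
    ring
  · refine card_biUnion_le.trans (sum_le_sum fun r _ => ?_)
    rw [Fintype.card_piFinset_const, fl_card]

/-- the count of the tuples of coalescing trajectories -/
theorem SC_upper {k Y : ℕ} (R : Finset ℕ) (hR : ∀ r : ℕ, r ≤ Y → Rep r → r ∈ R) (N : ℕ) :
    (SC (k + 2) N).ncard ≤ cN (fun n => ¬ ∃ z, Fp Y n z) N * N ^ (k + 1)
      + ∑ r ∈ R, cN (fun n => Meets n r) N ^ (k + 2) := by
  classical
  set I := Icc 1 N with hI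
  have hIc : I.card = N := by rw [hI, Nat.card_Icc, Nat.add_sub_cancel]
  set NR := fl (fun n => ¬ ∃ z, Fp Y n z) N with hNR
  have hsub : (SC (k + 2) N) ⊆ (box1 k NR I I ∪
      (R.biUnion fun r => Fintype.piFinset (fun _ : Fin (k + 2) => fl (fun n => Meets n r) N)) :
        Finset (Fin (k + 2) → ℕ)) := by
    rintro v ⟨hv, m, hvm⟩
    have hvI : ∀ i, v i ∈ I := fun i => by rw [hI, mem_Icc]; exact ⟨(hv i).1, (hv i).2⟩
    rw [mem_coe, mem_union, mem_biUnion]
    by_cases h0 : ∃ z, Fp Y (v 0) z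
    · right
      obtain ⟨a, t, h1, h2, _⟩ := h0
      have ha0 : 0 < a := by
        rw [← h1]
        exact iter_pos (hv 0).1 t
      obtain ⟨r, h4, h5, h6⟩ := exists_rep ha0
      refine ⟨r, hR r (h6.trans h2) h4, ?_⟩
      rw [Fintype.mem_piFinset]
      refine fun i => mem_fl.2 ⟨⟨(hv i).1, (hv i).2⟩, ?_⟩
      obtain ⟨p, hp⟩ := hvm i
      obtain ⟨p0, hp0⟩ := hvm 0
      have h7 : Meets (v i) (v 0) := ⟨p, p0, by rw [hp, hp0]⟩
      have h8 : Meets (v 0) a := ⟨t, 0, h1⟩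
      exact h7.trans (h8.trans h5)
    · left
      exact mem_box1.2 ⟨mem_fl.2 ⟨⟨(hv 0).1, (hv 0).2⟩, h0⟩, hvI 1, fun i => hvI _⟩
  have h1 := Set.ncard_le_ncard hsub (Finset.finite_toSet _)
  rw [Set.ncard_coe_finset] at h1
  refine h1.trans ((card_union_le _ _).trans (Nat.add_le_add ?_ ?_))
  · rw [box1_card, hIc, hNR, fl_card]
    apply le_of_eq
    ring
  · refine card_biUnion_le.trans (sum_le_sum fun r _ => ?_)
    rw [Fintype.card_piFinset_const, fl_card]

end Pool.Agent.V11311.DV
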