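import Pool.Agent.V11311.DV.C

/-! Divergent mass, part D: the limits. -/

set_option autoImplicit false

namespace Pool.Agent.V11311.DV

open Finset Filter Topology Pool.Agent.V11311.PD Pool.Agent.V11311.PL Pool.Agent.V11311.FP

open Pool.Agent.Helper894.Collatz (T od T_even T_odd)

open Pool.Agent.H377R2 (iter_pos)

/-- `δ` is the density of the classes -/
def IsC (δ : ℕ → ℝ) : Prop := ∀ r : ℕ, HasD (fun n => Meets n r) (δ r)

open scoped Classical in
/-- the terms of the sums -/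
noncomputable def W (δ : ℕ → ℝ) (E : ℕ → Prop) (k r : ℕ) : ℝ := if Rep r ∧ E r then δ r ^ k else 0

variable {δ : ℕ → ℝ}

theorem IsC.nonneg (h : IsC δ) (r : ℕ) : 0 ≤ δ r := HasD.nonneg (h r)

theorem IsC.le_one (h : IsC δ) (r : ℕ) : δ r ≤ 1 := HasD.mono (fun _ _ _ => trivial) (h r) HasD_true

theorem IsC.sum_le (h : IsC δ) (R : Finset ℕ) (hR : ∀ r ∈ R, Rep r) : ∑ r ∈ R, δ r ≤ 1 := by
  refine sum_dens_le R (fun r n => Meets n r) δ (fun r _ => h r) ?_ HasD_true (fun _ _ _ _ _ => trivial)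
  intro r hr s hs hrs n _ h1 h2
  exact hrs ((hR r hr).eq (hR s hs) (h1.symm.trans h2))

theorem W_nonneg (h : IsC δ) (E : ℕ → Prop) (k r : ℕ) : 0 ≤ W δ E k r := by
  unfold W
  split_ifs
  · exact pow_nonneg (h.nonneg r) k
  · exact le_rfl

theorem W_summable (h : IsC δ) (E : ℕ → Prop) {k : ℕ} (hk : 1 ≤ k) : Summable (W δ E k) := by
  classical
  refine summable_of_sum_range_le (c := 1) (W_nonneg h E k) fun n => ?_
  calc ∑ r ∈ range n, W δ E k r ≤ ∑ r ∈ range n, (if Rep r then δ r else 0) := by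
        apply sum_le_sum
        intro r _
        unfold W
        by_cases h1 : Rep r ∧ E r
        · rw [if_pos h1, if_pos h1.1]
          exact pow_le_of_le_one (h.nonneg r) (h.le_one r) (by omega)
        · rw [if_neg h1]
          split_ifs
          · exact h.nonneg r
          · exact le_rfl
    _ = ∑ r ∈ (range n).filter Rep, δ r := (sum_filter _ _).symm
    _ ≤ 1 := h.sum_le _ fun r hr => (mem_filter.1 hr).2

theorem sum_W (R : Finset ℕ) (E : ℕ → Prop) (k : ℕ) (hR : ∀ r ∈ R, Rep r ∧ E r) :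
    ∑ r ∈ R, W δ E k r = ∑ r ∈ R, δ r ^ k := by
  apply sum_congr rfl
  intro r hr
  unfold W
  rw [if_pos (hR r hr)]

/-- counts of tuples in classes -/
theorem cls_tendsto (h : IsC δ) (R : Finset ℕ) (k : ℕ) :
    Tendsto (fun N : ℕ => ((∑ r ∈ R, cN (fun n => Meets n r) N ^ k : ℕ) : ℝ) / (N : ℝ) ^ k) atTop
      (𝓝 (∑ r ∈ R, δ r ^ k)) := by
  have h1 : Tendsto (fun N : ℕ => ∑ r ∈ R, ((cN (fun n => Meets n r) N : ℝ) / N) ^ k) atTop (𝓝 (∑ r ∈ R, δ r ^ k)) :=
    tendsto_finsetSum _ fun r _ => (h r).pow k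
  refine h1.congr fun N => ?_
  push_cast
  rw [sum_div]
  exact sum_congr rfl fun r _ => div_pow _ _ _

theorem not_dens {P : ℕ → Prop} {l : ℝ} (h : HasD P l) : HasD (fun n => ¬ P n) (1 - l) := by
  classical
  have h1 : Tendsto (fun N : ℕ => (1 : ℝ) - (cN P N : ℝ) / N) atTop (𝓝 (1 - l)) := h.const_sub 1
  refine h1.congr' ?_
  filter_upwards [eventually_gt_atTop 0] with N hN
  have hN0 : (N : ℝ) ≠ 0 := by exact_mod_cast hN.ne'
  have h2 : cN P N + cN (fun n => ¬ P n) N = N := by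
    unfold cN
    rw [card_filter_add_card_filter_not, Nat.card_Icc, Nat.add_sub_cancel]
  have h3 : (cN P N : ℝ) + (cN (fun n => ¬ P n) N : ℝ) = N := by exact_mod_cast h2
  rw [eq_div_iff hN0, sub_mul, one_mul, div_mul_cancel₀ _ hN0]
  linarith

/-- the classes carry the whole mass -/
theorem mass_one (h : IsC δ) : ∑' r, W δ (fun _ => True) 1 r = 1 := by
  classical
  have hs := W_summable h (fun _ => True) le_rfl
  apply le_antisymm
  · apply hs.tsum_le_of_sum_range_le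
    intro n
    calc ∑ r ∈ range n, W δ (fun _ => True) 1 r = ∑ r ∈ (range n).filter Rep, δ r := by
          rw [sum_filter]
          apply sum_congr rfl
          intro r _
          unfold W
          simp
      _ ≤ 1 := h.sum_le _ fun r hr => (mem_filter.1 hr).2
  · apply le_of_forall_pos_le_add
    intro ε hε
    obtain ⟨Y, hY⟩ := (reach_one ε hε).exists
    obtain ⟨l, hl⟩ := fp_dens Y (fun _ => True)
    have hl' : HasD (fun n => ∃ z, Fp Y n z) l := HasD.congr hl fun n _ => by simp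
    have h1 := hY l hl'
    set R := (range (Y + 1)).filter Rep with hR
    have h2 : l ≤ ∑ r ∈ R, δ r := by
      have h3 : Tendsto (fun N : ℕ => ∑ r ∈ R, (cN (fun n => Meets n r) N : ℝ) / N) atTop (𝓝 (∑ r ∈ R, δ r)) :=
        tendsto_finsetSum _ fun r _ => h r
      apply le_of_tendsto_of_tendsto' hl' h3
      intro N
      rw [← sum_div]
      apply div_le_div_of_nonneg_right _ (Nat.cast_nonneg _)
      have h4 : cN (fun n => ∃ z, Fp Y n z) N ≤ ∑ r ∈ R, cN (fun n => Meets n r) N := by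
        unfold cN
        refine le_trans (card_le_card ?_) card_biUnion_le
        intro n hn
        rw [mem_filter, mem_Icc] at hn
        obtain ⟨hn1, z, t, h5, h6, _⟩ := hn
        have hz0 : 0 < z := by
          rw [← h5]
          exact iter_pos hn1.1 t
        obtain ⟨r, h7, h8, h9⟩ := exists_rep hz0
        rw [mem_biUnion]
        refine ⟨r, ?_, ?_⟩
        · rw [hR, mem_filter, mem_range]
          exact ⟨by omega, h7⟩
        · rw [mem_filter, mem_Icc]
          have h10 : Meets n z := ⟨t, 0, h5⟩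
          exact ⟨hn1, h10.trans h8⟩
      exact_mod_cast h4
    have h3 : ∑ r ∈ R, δ r ≤ ∑' r, W δ (fun _ => True) 1 r := by
      calc ∑ r ∈ R, δ r = ∑ r ∈ R, W δ (fun _ => True) 1 r := by
            rw [sum_W R (fun _ => True) 1 (fun r hr => ⟨(mem_filter.1 hr).2, trivial⟩)]
            simp
        _ ≤ _ := hs.sum_le_tsum R fun r _ => W_nonneg h _ _ r
    linarith

/-- the lower bound -/
theorem low_gen (h : IsC δ) (E : ℕ → Prop) (k : ℕ) (S : ℕ → Set (Fin (k + 2) → ℕ))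
    (hfin : ∀ N, (S N).Finite) (hS : ∀ N r : ℕ, Rep r → E r → ∀ v : Fin (k + 2) → ℕ,
      (∀ i, (1 ≤ v i ∧ v i ≤ N) ∧ Meets (v i) r) → v ∈ S N) (ε : ℝ) (hε : 0 < ε) :
    ∀ᶠ N : ℕ in atTop, ∑' r, W δ E (k + 2) r - ε ≤ ((S N).ncard : ℝ) / (N : ℝ) ^ (k + 2) := by
  classical
  have hs := W_summable h E (k := k + 2) (by omega)
  have h1 := hs.hasSum.tendsto_sum_nat
  obtain ⟨n, hn⟩ := (h1.eventually (lt_mem_nhds (by linarith : ∑' r, W δ E (k + 2) r - ε / 2
    < ∑' r, W δ E (k + 2) r))).exists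
  set R := (range n).filter fun r => Rep r ∧ E r with hR
  have hRE : ∀ r ∈ R, Rep r ∧ E r := fun r hr => (mem_filter.1 hr).2
  have h2 : ∑ r ∈ range n, W δ E (k + 2) r = ∑ r ∈ R, δ r ^ (k + 2) := by
    rw [hR, sum_filter]
    apply sum_congr rfl
    intro r _
    unfold W
    rfl
  rw [h2] at hn
  have h3 := (cls_tendsto h R (k + 2)).eventually (lt_mem_nhds (by linarith : ∑ r ∈ R, δ r ^ (k + 2) - ε / 2
    < ∑ r ∈ R, δ r ^ (k + 2)))
  filter_upwards [h3] with N hN
  have h4 := cls_low (k := k) R (fun r hr => (hRE r hr).1) N (hfin N)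
    (fun r hr v hv => hS N r (hRE r hr).1 (hRE r hr).2 v hv)
  have h5 : ((∑ r ∈ R, cN (fun n => Meets n r) N ^ (k + 2) : ℕ) : ℝ) / (N : ℝ) ^ (k + 2)
      ≤ ((S N).ncard : ℝ) / (N : ℝ) ^ (k + 2) := by
    apply div_le_div_of_nonneg_right _ (by positivity)
    exact_mod_cast h4
  linarith

theorem SH_fin (k x N : ℕ) : (SH k x N).Finite := tup_fin fun _ hv => hv.1

theorem SC_fin (k N : ℕ) : (SC k N).Finite := tup_fin fun _ hv => hv.1

/-- the upper bound for the coalescing tuples -/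
theorem SC_up (h : IsC δ) (k : ℕ) (ε : ℝ) (hε : 0 < ε) :
    ∀ᶠ N : ℕ in atTop, ((SC (k + 2) N).ncard : ℝ) / (N : ℝ) ^ (k + 2) ≤ ∑' r, W δ (fun _ => True) (k + 2) r + 2 * ε := by
  classical
  obtain ⟨Y, hY⟩ := (reach_one ε hε).exists
  obtain ⟨l, hl⟩ := fp_dens Y (fun _ => True)
  have hl' : HasD (fun n => ∃ z, Fp Y n z) l := HasD.congr hl fun n _ => by simp
  have h1 := hY l hl'
  set R := (range (Y + 1)).filter Rep with hR
  have h2 : ∑ r ∈ R, δ r ^ (k + 2) ≤ ∑' r, W δ (fun _ => True) (k + 2) r := by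
    rw [← sum_W R (fun _ => True) (k + 2) (fun r hr => ⟨(mem_filter.1 hr).2, trivial⟩)]
    exact (W_summable h _ (by omega)).sum_le_tsum R fun r _ => W_nonneg h _ _ r
  have h3 := (not_dens hl').add (cls_tendsto h R (k + 2))
  have h4 : (1 - l) + ∑ r ∈ R, δ r ^ (k + 2) < ∑' r, W δ (fun _ => True) (k + 2) r + 2 * ε := by linarith
  filter_upwards [h3.eventually (gt_mem_nhds h4), eventually_gt_atTop 0] with N hN hN0
  have hN1 : (0 : ℝ) < N := by exact_mod_cast hN0
  refine le_trans ?_ hN.le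
  have h5 := SC_upper (k := k) (Y := Y) R (fun r hr h6 => mem_filter.2 ⟨mem_range.2 (by omega), h6⟩) N
  have h6 : ((SC (k + 2) N).ncard : ℝ) ≤ ((cN (fun n => ¬ ∃ z, Fp Y n z) N * N ^ (k + 1) : ℕ) : ℝ)
      + ((∑ r ∈ R, cN (fun n => Meets n r) N ^ (k + 2) : ℕ) : ℝ) := by exact_mod_cast h5
  calc ((SC (k + 2) N).ncard : ℝ) / (N : ℝ) ^ (k + 2)
      ≤ (((cN (fun n => ¬ ∃ z, Fp Y n z) N * N ^ (k + 1) : ℕ) : ℝ)
        + ((∑ r ∈ R, cN (fun n => Meets n r) N ^ (k + 2) : ℕ) : ℝ)) / (N : ℝ) ^ (k + 2) :=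
        div_le_div_of_nonneg_right h6 (by positivity)
    _ = _ := by
        rw [add_div]
        congr 1
        push_cast
        rw [div_eq_div_iff (by positivity) (by positivity)]
        ring

/-- the upper bound for the tuples with a common large term -/
theorem SH_up (h : IsC δ) (k : ℕ) (ε : ℝ) (hε : 0 < ε) : ∀ᶠ x : ℕ in atTop,
    ∀ᶠ N : ℕ in atTop, ((SH (k + 2) x N).ncard : ℝ) / (N : ℝ) ^ (k + 2) ≤ ∑' r, W δ Div (k + 2) r + 4 * ε := by
  classical
  obtain ⟨Y, hY, hYa⟩ := ((reach_one ε hε).and (atoms ε hε)).exists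
  obtain ⟨l, hl⟩ := fp_dens Y (fun _ => True)
  have hl' : HasD (fun n => ∃ z, Fp Y n z) l := HasD.congr hl fun n _ => by simp
  have h1 := hY l hl'
  have hex : ∀ z : ℕ, ∃ c : ℝ, HasD (fun n => Fp Y n z) c := by
    intro z
    obtain ⟨c, hc⟩ := fp_dens Y (fun z' => z' = z)
    refine ⟨c, HasD.congr hc fun n _ => ?_⟩
    constructor
    · rintro ⟨z', h1, rfl⟩; exact h1
    · intro h1; exact ⟨z, h1, rfl⟩
  choose c hc using hex
  have hc0 : ∀ z, 0 ≤ c z := fun z => HasD.nonneg (hc z)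
  have hce : ∀ z, c z ≤ ε := fun z => hYa z (c z) (hc z)
  have hsum : ∑ z ∈ range (Y + 1), c z ≤ 1 := by
    refine sum_dens_le _ (fun z n => Fp Y n z) c (fun z _ => hc z) ?_ HasD_true (fun _ _ _ _ _ => trivial)
    intro z _ z' _ hne n _ h1 h2
    exact hne (h1.unique h2)
  have hsq : ∑ z ∈ range (Y + 1), c z ^ 2 ≤ ε := by
    calc ∑ z ∈ range (Y + 1), c z ^ 2 ≤ ∑ z ∈ range (Y + 1), ε * c z := by
          apply sum_le_sum
          intro z _
          rw [sq]
          exact mul_le_mul_of_nonneg_right (hce z) (hc0 z)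
      _ = ε * ∑ z ∈ range (Y + 1), c z := by rw [mul_sum]
      _ ≤ ε * 1 := mul_le_mul_of_nonneg_left hsum hε.le
      _ = ε := mul_one ε
  -- the bounds of the trajectories which are not divergent
  have hB : ∀ b : ℕ, ∃ B : ℕ, ¬ Div b → ∀ j, T^[j] b ≤ B := by
    intro b
    by_cases hb : Div b
    · exact ⟨0, fun h => absurd hb h⟩
    · obtain ⟨B, hB⟩ := bdd_of_not_div hb
      exact ⟨B, fun _ => hB⟩
  choose B hB using hB
  set R := (range (Y + 1)).filter (fun r => Rep r ∧ Div r) with hR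
  have h2 : ∑ r ∈ R, δ r ^ (k + 2) ≤ ∑' r, W δ Div (k + 2) r := by
    rw [← sum_W R Div (k + 2) (fun r hr => (mem_filter.1 hr).2)]
    exact (W_summable h _ (by omega)).sum_le_tsum R fun r _ => W_nonneg h _ _ r
  filter_upwards [eventually_ge_atTop (∑ b ∈ range (Y + 1), B b)] with x hx
  have hxB : ∀ b ≤ Y, ¬ Div b → ∀ j, T^[j] b ≤ x := by
    intro b hb hdb j
    have h3 : B b ≤ ∑ b ∈ range (Y + 1), B b :=
      single_le_sum (f := B) (fun _ _ => Nat.zero_le _) (mem_range.2 (by omega))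
    exact (hB b hdb j).trans (h3.trans hx)
  have h3 : Tendsto (fun N : ℕ => ∑ z ∈ range (Y + 1), ((cN (fun n => Fp Y n z) N : ℝ) / N) ^ 2) atTop
      (𝓝 (∑ z ∈ range (Y + 1), c z ^ 2)) := tendsto_finsetSum _ fun z _ => (hc z).pow 2
  have h4 := (((not_dens hl').const_mul 2).add h3).add (cls_tendsto h R (k + 2))
  have h5 : 2 * (1 - l) + ∑ z ∈ range (Y + 1), c z ^ 2 + ∑ r ∈ R, δ r ^ (k + 2)
      < ∑' r, W δ Div (k + 2) r + 4 * ε := by linarith
  filter_upwards [h4.eventually (gt_mem_nhds h5), eventually_gt_atTop 0] with N hN hN0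
  have hN1 : (0 : ℝ) < N := by exact_mod_cast hN0
  refine le_trans ?_ hN.le
  have h6 := SH_upper (k := k) hxB R (fun r hr h7 h8 => mem_filter.2 ⟨mem_range.2 (by omega), h7, h8⟩) N
  have h7 : ((SH (k + 2) x N).ncard : ℝ) ≤ ((2 * (cN (fun n => ¬ ∃ z, Fp Y n z) N * N ^ (k + 1)) : ℕ) : ℝ)
      + ((∑ z ∈ range (Y + 1), cN (fun n => Fp Y n z) N ^ 2 * N ^ k : ℕ) : ℝ)
      + ((∑ r ∈ R, cN (fun n => Meets n r) N ^ (k + 2) : ℕ) : ℝ) := by exact_mod_cast h6
  calc ((SH (k + 2) x N).ncard : ℝ) / (N : ℝ) ^ (k + 2)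
      ≤ (((2 * (cN (fun n => ¬ ∃ z, Fp Y n z) N * N ^ (k + 1)) : ℕ) : ℝ)
      + ((∑ z ∈ range (Y + 1), cN (fun n => Fp Y n z) N ^ 2 * N ^ k : ℕ) : ℝ)
      + ((∑ r ∈ R, cN (fun n => Meets n r) N ^ (k + 2) : ℕ) : ℝ)) / (N : ℝ) ^ (k + 2) :=
        div_le_div_of_nonneg_right h7 (by positivity)
    _ = _ := by
        rw [add_div, add_div]
        congr 1
        congr 1
        · push_cast
          rw [mul_div_assoc', div_eq_div_iff (by positivity) (by positivity)]
          ring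
        · push_cast
          rw [sum_div]
          apply sum_congr rfl
          intro z _
          rw [div_pow, div_eq_div_iff (by positivity) (by positivity)]
          ring

end Pool.Agent.V11311.DV
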