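import Pool.Agent.V11311.DV.E

/-! The law of the meeting point, part F: first common terms. -/

set_option autoImplicit false

namespace Pool.Agent.V11311.DV

open Finset Filter Topology Pool.Agent.V11311.PD Pool.Agent.V11311.PL Pool.Agent.V11311.FP

open Pool.Agent.Helper894.Collatz (T od T_even T_odd)

open Pool.Agent.H377R2 (iter_pos)

/-- `m` is the first term of the trajectory of `a` which is a term of the trajectory of `b` -/
def Fst (a b m : ℕ) : Prop := ∃ i : ℕ, T^[i] a = m ∧ Vis b m ∧ ∀ i' < i, ¬ Vis b (T^[i'] a)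

theorem Fst.unique {a b m m' : ℕ} (h : Fst a b m) (h' : Fst a b m') : m = m' := by
  obtain ⟨i, h1, h2, h3⟩ := h
  obtain ⟨j, g1, g2, g3⟩ := h'
  rcases lt_trichotomy i j with h | h | h
  · exact absurd (h1 ▸ h2) (g3 i h)
  · subst h
    rw [← h1, ← g1]
  · exact absurd (g1 ▸ g2) (h3 j h)

theorem Fst.meets {a b m : ℕ} (h : Fst a b m) : Vis a m ∧ Vis b m := by
  obtain ⟨i, h1, h2, _⟩ := h
  exact ⟨⟨i, h1⟩, h2⟩

theorem exists_fst {a b m : ℕ} (h1 : Vis a m) (h2 : Vis b m) : ∃ m', Fst a b m' := by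
  classical
  have hex : ∃ i : ℕ, Vis b (T^[i] a) := by
    obtain ⟨i, hi⟩ := h1
    exact ⟨i, by rw [hi]; exact h2⟩
  exact ⟨T^[Nat.find hex] a, Nat.find hex, rfl, Nat.find_spec hex, fun i hi => Nat.find_min hex hi⟩

theorem Vis.step {b e : ℕ} (h : Vis b e) : Vis b (T e) := by
  obtain ⟨j, hj⟩ := h
  exact ⟨j + 1, by rw [Function.iterate_succ_apply', hj]⟩

theorem fst_iff (a b m : ℕ) : Fst a b m ↔ (a = m ∧ Vis b m) ∨ ∃ e, T e = m ∧ Vis a e ∧ Vis b m ∧ ¬ Vis b e := by
  constructor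
  · rintro ⟨i, h1, h2, h3⟩
    cases i with
    | zero => exact Or.inl ⟨h1, h2⟩
    | succ i =>
      right
      refine ⟨T^[i] a, ?_, ⟨i, rfl⟩, h2, h3 i (Nat.lt_succ_self i)⟩
      rw [← h1, Function.iterate_succ_apply']
  · rintro (⟨rfl, h2⟩ | ⟨e, h1, ⟨j, h2⟩, h3, h4⟩)
    · exact ⟨0, rfl, h2, fun i' hi' => absurd hi' (Nat.not_lt_zero i')⟩
    · refine ⟨j + 1, by rw [Function.iterate_succ_apply', h2, h1], h3, fun i' hi' hv => h4 ?_⟩
      obtain ⟨l, hl⟩ := hv
      refine ⟨j - i' + l, ?_⟩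
      rw [Function.iterate_add_apply, hl, ← Function.iterate_add_apply, Nat.sub_add_cancel (by omega), h2]

theorem T_eq_iff {e m : ℕ} : T e = m ↔ e = 2 * m ∨ 3 * e + 1 = 2 * m ∧ e % 2 = 1 := by
  unfold Pool.Agent.Helper894.Collatz.T
  split_ifs with h
  · omega
  · omega

theorem bdd_of_rep {r i j : ℕ} (hij : i < j) (h : T^[i] r = T^[j] r) : ∃ B : ℕ, ∀ k : ℕ, T^[k] r ≤ B := by
  have h1 : ∀ k : ℕ, ∃ k' < j, T^[k] r = T^[k'] r := by
    intro k
    induction k using Nat.strong_induction_on with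
    | _ k ih =>
      rcases lt_or_ge k j with hk | hk
      · exact ⟨k, hk, rfl⟩
      · obtain ⟨k', h2, h3⟩ := ih (k - j + i) (by omega)
        refine ⟨k', h2, ?_⟩
        rw [← h3, Function.iterate_add_apply, h, ← Function.iterate_add_apply, Nat.sub_add_cancel hk]
  refine ⟨∑ k ∈ range j, T^[k] r, fun k => ?_⟩
  obtain ⟨k', h2, h3⟩ := h1 k
  rw [h3]
  exact single_le_sum (f := fun k => T^[k] r) (fun _ _ => Nat.zero_le _) (mem_range.2 h2)

/-- the terms of the trajectory of `b` before a visit to `a` are bounded -/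
theorem before_bdd (a b : ℕ) : ∃ X : ℕ, ∀ s s' : ℕ, s ≤ s' → T^[s'] b = a → T^[s] b ≤ X := by
  by_cases h : ∃ s1 s2 : ℕ, s1 < s2 ∧ T^[s1] b = a ∧ T^[s2] b = a
  · obtain ⟨s1, s2, h1, h2, h3⟩ := h
    obtain ⟨B, hB⟩ := bdd_of_rep h1 (h2.trans h3.symm)
    exact ⟨B, fun s _ _ _ => hB s⟩
  · push Not at h
    by_cases h0 : ∃ t, T^[t] b = a
    · obtain ⟨t, ht⟩ := h0
      refine ⟨∑ k ∈ range (t + 1), T^[k] b, fun s s' hs hs' => ?_⟩
      have h1 : s' ≤ t := by
        by_contra hcon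
        exact h t s' (by omega) ht hs'
      exact single_le_sum (f := fun k => T^[k] b) (fun _ _ => Nat.zero_le _) (mem_range.2 (by omega))
    · push Not at h0
      exact ⟨0, fun s s' _ hs' => absurd hs' (h0 s')⟩

/-- first common terms are bounded in terms of the first passages -/
theorem fst_bdd (a b : ℕ) : ∃ X : ℕ, ∀ Y n n' m : ℕ, Fp Y n a → Fp Y n' b → a ≠ b → Fst n n' m → m ≤ X := by
  classical
  obtain ⟨X1, hX1⟩ := before_bdd a b
  by_cases hm : ∃ l, Vis b (T^[l] a)
  · obtain ⟨l0, hl0⟩ := hm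
    refine ⟨max X1 (∑ k ∈ range (l0 + 1), T^[k] a), ?_⟩
    rintro Y n n' m ⟨t, h1, h2, h3⟩ hb hab ⟨i, g1, g2, g3⟩
    rcases lt_or_ge i t with hi | hi
    · apply le_trans _ (le_max_left _ _)
      rcases fp_split hb g2 with h4 | ⟨s, hs⟩
      · exfalso
        apply hab
        have h5 : Fp Y m a := by
          refine ⟨t - i, ?_, h2, fun j hj => ?_⟩
          · rw [← g1, ← Function.iterate_add_apply, Nat.sub_add_cancel hi.le, h1]
          · rw [← g1, ← Function.iterate_add_apply]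
            exact h3 _ (by omega)
        exact h5.unique h4
      · rw [← hs]
        refine hX1 s (t - i + s) (by omega) ?_
        rw [Function.iterate_add_apply, hs, ← g1, ← Function.iterate_add_apply, Nat.sub_add_cancel hi.le, h1]
    · apply le_trans _ (le_max_right _ _)
      have h4 : m = T^[i - t] a := by
        rw [← g1, ← h1, ← Function.iterate_add_apply, Nat.sub_add_cancel hi]
      have h5 : i - t ≤ l0 := by
        by_contra hcon
        push Not at hcon
        apply g3 (l0 + t) (by omega)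
        rw [Function.iterate_add_apply, h1]
        obtain ⟨p, hp⟩ := hl0
        obtain ⟨q, hq, _, _⟩ := hb
        exact ⟨p + q, by rw [Function.iterate_add_apply, hq, hp]⟩
      rw [h4]
      exact single_le_sum (f := fun k => T^[k] a) (fun _ _ => Nat.zero_le _) (mem_range.2 (by omega))
  · refine ⟨X1, ?_⟩
    rintro Y n n' m ⟨t, h1, h2, h3⟩ hb hab ⟨i, g1, g2, g3⟩
    exfalso
    apply hm
    obtain ⟨p, hp⟩ := g2
    obtain ⟨q, hq, _, _⟩ := hb
    refine ⟨i + q, p + t, ?_⟩
    have h5 : T^[p + t] b = T^[p + q + t] n' := by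
      rw [← hq, ← Function.iterate_add_apply]
      congr 1
      omega
    have h6 : T^[i + q] a = T^[i + q + t] n := by
      rw [Function.iterate_add_apply _ (i + q) t, h1]
    rw [h5, h6]
    have h7 : T^[p + q + t] n' = T^[q + t] (T^[p] n') := by
      rw [← Function.iterate_add_apply]
      congr 1
      omega
    have h8 : T^[i + q + t] n = T^[q + t] (T^[i] n) := by
      rw [← Function.iterate_add_apply]
      congr 1
      omega
    rw [h7, h8, hp, g1]

end Pool.Agent.V11311.DV
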