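import Pool.Agent.V11311.DV.F

/-! The law of the meeting point, part G: counting and the limit law. -/

set_option autoImplicit false

namespace Pool.Agent.V11311.DV

open Finset Filter Topology Pool.Agent.V11311.PD Pool.Agent.V11311.PL Pool.Agent.V11311.FP

open Pool.Agent.Helper894.Collatz (T od T_even T_odd)

open Pool.Agent.H377R2 (iter_pos)

/-- the pairs with the first common term `m` -/
def FS (m N : ℕ) : Set (Fin 2 → ℕ) := {v | (∀ i, 0 < v i ∧ v i ≤ N) ∧ Fst (v 0) (v 1) m}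

/-- the pairs with the first common term `> X` -/
def TL (X N : ℕ) : Set (Fin 2 → ℕ) := {v | (∀ i, 0 < v i ∧ v i ≤ N) ∧ ∃ m, X < m ∧ Fst (v 0) (v 1) m}

theorem FS_fin (m N : ℕ) : (FS m N).Finite := tup_fin fun _ hv => hv.1

theorem TL_fin (X N : ℕ) : (TL X N).Finite := tup_fin fun _ hv => hv.1

/-- the preimages -/
def pre (m : ℕ) : Finset ℕ := (range (2 * m + 1)).filter fun e => T e = m

theorem mem_pre {m e : ℕ} : e ∈ pre m ↔ T e = m := by
  unfold pre
  rw [mem_filter, mem_range]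
  constructor
  · exact fun h => h.2
  · intro h
    refine ⟨?_, h⟩
    rcases T_eq_iff.1 h with h1 | ⟨h1, _⟩ <;> omega

theorem vis_trans {a b c : ℕ} (h : Vis a b) (h' : Vis b c) : Vis a c := by
  obtain ⟨i, hi⟩ := h
  obtain ⟨j, hj⟩ := h'
  exact ⟨j + i, by rw [Function.iterate_add_apply, hi, hj]⟩

theorem two_pre {a m e e' : ℕ} (he : T e = m) (he' : T e' = m) (hne : e ≠ e') (h : Vis a e) (h' : Vis a e') :
    Vis m e ∨ Vis m e' := by
  obtain ⟨i, hi⟩ := h
  obtain ⟨j, hj⟩ := h'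
  rcases lt_trichotomy i j with h | h | h
  · right
    refine ⟨j - i - 1, ?_⟩
    rw [← he, ← hi, ← Function.iterate_succ_apply, ← Function.iterate_add_apply]
    rw [← hj]
    congr 1
    omega
  · subst h
    exact absurd (hi.symm.trans hj) hne
  · left
    refine ⟨i - j - 1, ?_⟩
    rw [← he', ← hj, ← Function.iterate_succ_apply, ← Function.iterate_add_apply]
    rw [← hi]
    congr 1
    omega

/-- the box of the pairs coming through `e` -/
noncomputable def bx (m N e : ℕ) : Finset (Fin 2 → ℕ) :=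
  box1 0 (fl (fun n => Vis n e) N) (fl (fun n => Vis n m ∧ ¬ Vis n e) N) ∅

theorem mem_bx {m N e : ℕ} {v : Fin 2 → ℕ} :
    v ∈ bx m N e ↔ (∀ i, 0 < v i ∧ v i ≤ N) ∧ Vis (v 0) e ∧ Vis (v 1) m ∧ ¬ Vis (v 1) e := by
  unfold bx
  rw [mem_box1, mem_fl, mem_fl, Fin.forall_fin_two]
  constructor
  · rintro ⟨⟨h1, h2⟩, ⟨h3, h4⟩, _⟩
    exact ⟨⟨h1, h3⟩, h2, h4⟩
  · rintro ⟨⟨h1, h3⟩, h2, h4⟩
    exact ⟨⟨h1, h2⟩, ⟨h3, h4⟩, fun i => i.elim0⟩

theorem bx_card (m N e : ℕ) : (bx m N e).card = cN (fun n => Vis n e) N * cN (fun n => Vis n m ∧ ¬ Vis n e) N := by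
  unfold bx
  rw [box1_card, fl_card, fl_card, pow_zero, mul_one]

theorem FS_low (m N : ℕ) :
    ∑ e ∈ pre m, cN (fun n => Vis n e) N * cN (fun n => Vis n m ∧ ¬ Vis n e) N ≤ (FS m N).ncard := by
  classical
  rw [sum_congr rfl fun e _ => (bx_card m N e).symm, ← card_biUnion, ← Set.ncard_coe_finset]
  · apply Set.ncard_le_ncard _ (FS_fin m N)
    intro v hv
    rw [mem_coe, mem_biUnion] at hv
    obtain ⟨e, he, hv⟩ := hv
    obtain ⟨h1, h2, h3, h4⟩ := mem_bx.1 hv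
    exact ⟨h1, (fst_iff _ _ _).2 (Or.inr ⟨e, mem_pre.1 he, h2, h3, h4⟩)⟩
  · intro e he e' he' hne
    rw [Function.onFun, disjoint_left]
    intro v h1 h2
    obtain ⟨_, g1, g2, g3⟩ := mem_bx.1 h1
    obtain ⟨_, g4, _, g6⟩ := mem_bx.1 h2
    rcases two_pre (mem_pre.1 he) (mem_pre.1 he') hne g1 g4 with h | h
    · exact g3 (vis_trans g2 h)
    · exact g6 (vis_trans g2 h)

theorem FS_upp (m N : ℕ) : (FS m N).ncard ≤
    N + ∑ e ∈ pre m, cN (fun n => Vis n e) N * cN (fun n => Vis n m ∧ ¬ Vis n e) N := by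
  classical
  have hsub : FS m N ⊆ ((box1 0 {m} (Icc 1 N) ∅ ∪ (pre m).biUnion fun e => bx m N e : Finset (Fin 2 → ℕ)) :
      Set (Fin 2 → ℕ)) := by
    rintro v ⟨hv, hf⟩
    rw [mem_coe, mem_union, mem_biUnion]
    rcases (fst_iff _ _ _).1 hf with ⟨h1, h2⟩ | ⟨e, h1, h2, h3, h4⟩
    · left
      rw [mem_box1, mem_singleton, mem_Icc]
      exact ⟨h1, ⟨(hv 1).1, (hv 1).2⟩, fun i => i.elim0⟩
    · right
      exact ⟨e, mem_pre.2 h1, mem_bx.2 ⟨hv, h2, h3, h4⟩⟩
  have h1 := Set.ncard_le_ncard hsub (Finset.finite_toSet _)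
  rw [Set.ncard_coe_finset] at h1
  refine h1.trans ((card_union_le _ _).trans (Nat.add_le_add ?_ ?_))
  · rw [box1_card, card_singleton, Nat.card_Icc]
    simp
  · refine card_biUnion_le.trans (sum_le_sum fun e _ => ?_)
    rw [bx_card]

/-- the density of the integers which visit `m` but not its preimage `e` -/
theorem sub_dens {D : ℕ → ℝ} (hD : IsD D) {m e : ℕ} (he : T e = m) :
    HasD (fun n => Vis n m ∧ ¬ Vis n e) (D m - D e) := by
  classical
  have h1 : Tendsto (fun N : ℕ => (cN (fun n => Vis n m) N : ℝ) / N - (cN (fun n => Vis n e) N : ℝ) / N) atTop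
      (𝓝 (D m - D e)) := (IsD.hasD hD m).sub (IsD.hasD hD e)
  refine h1.congr fun N => ?_
  rw [← sub_div]
  congr 1
  have h2 : cN (fun n => Vis n e) N + cN (fun n => Vis n m ∧ ¬ Vis n e) N = cN (fun n => Vis n m) N := by
    rw [← fl_card, ← fl_card, ← fl_card, ← card_union_of_disjoint]
    · congr 1
      ext n
      rw [mem_union, mem_fl, mem_fl, mem_fl]
      constructor
      · rintro (⟨h1, h2⟩ | ⟨h1, h2, _⟩)
        · exact ⟨h1, by rw [← he]; exact Vis.step h2⟩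
        · exact ⟨h1, h2⟩
      · rintro ⟨h1, h2⟩
        by_cases h3 : Vis n e
        · exact Or.inl ⟨h1, h3⟩
        · exact Or.inr ⟨h1, h2, h3⟩
    · rw [disjoint_left]
      intro n h3 h4
      exact (mem_fl.1 h4).2.2 (mem_fl.1 h3).2
  have h3 : (cN (fun n => Vis n e) N : ℝ) + (cN (fun n => Vis n m ∧ ¬ Vis n e) N : ℝ) = cN (fun n => Vis n m) N := by
    exact_mod_cast h2
  linarith

/-- the limit law -/
noncomputable def pm (D : ℕ → ℝ) (m : ℕ) : ℝ := ∑ e ∈ pre m, D e * (D m - D e)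

theorem FS_lim {D : ℕ → ℝ} (hD : IsD D) (m : ℕ) :
    Tendsto (fun N : ℕ => ((FS m N).ncard : ℝ) / (N : ℝ) ^ 2) atTop (𝓝 (pm D m)) := by
  have h1 : Tendsto (fun N : ℕ => ∑ e ∈ pre m, ((cN (fun n => Vis n e) N : ℝ) / N)
      * ((cN (fun n => Vis n m ∧ ¬ Vis n e) N : ℝ) / N)) atTop (𝓝 (pm D m)) :=
    tendsto_finsetSum _ fun e he => (IsD.hasD hD e).mul (sub_dens hD (mem_pre.1 he))
  have h2 : Tendsto (fun N : ℕ => (1 : ℝ) / (N : ℝ) + ∑ e ∈ pre m, ((cN (fun n => Vis n e) N : ℝ) / N)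
      * ((cN (fun n => Vis n m ∧ ¬ Vis n e) N : ℝ) / N)) atTop (𝓝 (pm D m)) := by
    have h3 := tendsto_one_div_atTop_nhds_zero_nat (𝕜 := ℝ)
    have h4 := h3.add h1
    rwa [zero_add] at h4
  have e1 : ∀ N : ℕ, 0 < N → ∑ e ∈ pre m, ((cN (fun n => Vis n e) N : ℝ) / N)
      * ((cN (fun n => Vis n m ∧ ¬ Vis n e) N : ℝ) / N) = ((∑ e ∈ pre m, cN (fun n => Vis n e) N *
        cN (fun n => Vis n m ∧ ¬ Vis n e) N : ℕ) : ℝ) / (N : ℝ) ^ 2 := by
    intro N hN
    have hN0 : (N : ℝ) ≠ 0 := by exact_mod_cast hN.ne'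
    push_cast
    rw [sum_div]
    apply sum_congr rfl
    intro e _
    rw [div_mul_div_comm, sq]
  apply tendsto_of_tendsto_of_tendsto_of_le_of_le' h1 h2
  · filter_upwards [eventually_gt_atTop 0] with N hN
    rw [e1 N hN]
    apply div_le_div_of_nonneg_right _ (by positivity)
    exact_mod_cast FS_low m N
  · filter_upwards [eventually_gt_atTop 0] with N hN
    have hN0 : (0 : ℝ) < N := by exact_mod_cast hN
    rw [e1 N hN]
    have h3 : (1 : ℝ) / N = (N : ℝ) / (N : ℝ) ^ 2 := by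
      rw [sq, div_mul_cancel_right₀ hN0.ne', one_div]
    rw [h3, ← add_div]
    apply div_le_div_of_nonneg_right _ (by positivity)
    exact_mod_cast FS_upp m N

theorem pm_nonneg {D : ℕ → ℝ} (hD : IsD D) (m : ℕ) : 0 ≤ pm D m := by
  apply ge_of_tendsto' (FS_lim hD m)
  intro N
  positivity

theorem FS_dis (M : Finset ℕ) (N : ℕ) : ∑ m ∈ M, (FS m N).ncard ≤ (SC 2 N).ncard := by
  classical
  have h1 : ∀ m, (FS m N).ncard = (FS_fin m N).toFinset.card := fun m => Set.ncard_eq_toFinset_card _ _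
  rw [sum_congr rfl fun m _ => h1 m, ← card_biUnion, ← Set.ncard_coe_finset]
  · apply Set.ncard_le_ncard _ (SC_fin 2 N)
    intro v hv
    rw [mem_coe, mem_biUnion] at hv
    obtain ⟨m, _, hv⟩ := hv
    rw [Set.Finite.mem_toFinset] at hv
    obtain ⟨h2, h3⟩ := hv
    refine ⟨h2, m, ?_⟩
    rw [Fin.forall_fin_two]
    exact h3.meets
  · intro m _ m' _ hne
    rw [Function.onFun, disjoint_left]
    intro v h1 h2
    rw [Set.Finite.mem_toFinset] at h1 h2
    exact hne (h1.2.unique h2.2)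

theorem FS_cover (X N : ℕ) : (SC 2 N).ncard ≤ ∑ m ∈ range (X + 1), (FS m N).ncard + (TL X N).ncard := by
  classical
  have hsub : SC 2 N ⊆ ((range (X + 1)).biUnion fun m => (FS_fin m N).toFinset) ∪ (TL X N) := by
    rintro v ⟨hv, m, hm⟩
    rw [Fin.forall_fin_two] at hm
    obtain ⟨m', hm'⟩ := exists_fst hm.1 hm.2
    rw [Set.mem_union, mem_coe, mem_biUnion]
    rcases le_or_gt m' X with h | h
    · left
      exact ⟨m', mem_range.2 (by omega), (Set.Finite.mem_toFinset _).2 ⟨hv, hm'⟩⟩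
    · right
      exact ⟨hv, m', h, hm'⟩
  refine (Set.ncard_le_ncard hsub ((Finset.finite_toSet _).union (TL_fin X N))).trans ((Set.ncard_union_le _ _).trans
    (Nat.add_le_add_right ?_ _))
  rw [Set.ncard_coe_finset]
  refine card_biUnion_le.trans (sum_le_sum fun m _ => ?_)
  rw [Set.ncard_eq_toFinset_card _ (FS_fin m N)]

theorem TL_upper {Y X : ℕ} (hX : ∀ a b n n' m : ℕ, Fp Y n a → Fp Y n' b → a ≠ b → Fst n n' m → m ≤ X) (N : ℕ) :
    (TL X N).ncard ≤ 2 * (cN (fun n => ¬ ∃ z, Fp Y n z) N * N) + ∑ z ∈ range (Y + 1), cN (fun n => Fp Y n z) N ^ 2 := by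
  classical
  set I := Icc 1 N with hI
  have hIc : I.card = N := by rw [hI, Nat.card_Icc, Nat.add_sub_cancel]
  set NR := fl (fun n => ¬ ∃ z, Fp Y n z) N with hNR
  have hsub : TL X N ⊆ ((box1 0 NR I I ∪ box1 0 I NR I) ∪
      ((range (Y + 1)).biUnion fun z => box1 0 (fl (fun n => Fp Y n z) N) (fl (fun n => Fp Y n z) N) I) :
        Finset (Fin 2 → ℕ)) := by
    rintro v ⟨hv, m, hm, hf⟩
    have hvI : ∀ i, v i ∈ I := fun i => by rw [hI, mem_Icc]; exact ⟨(hv i).1, (hv i).2⟩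
    rw [mem_coe, mem_union, mem_union, mem_biUnion]
    by_cases h0 : ∃ z, Fp Y (v 0) z
    · by_cases h1 : ∃ z, Fp Y (v 1) z
      · obtain ⟨a, ha⟩ := h0
        obtain ⟨b, hb⟩ := h1
        by_cases hab : a = b
        · right
          subst hab
          have haY : a ≤ Y := by
            obtain ⟨_, _, h, _⟩ := ha
            exact h
          refine ⟨a, mem_range.2 (by omega), mem_box1.2 ⟨mem_fl.2 ⟨⟨(hv 0).1, (hv 0).2⟩, ha⟩,
            mem_fl.2 ⟨⟨(hv 1).1, (hv 1).2⟩, hb⟩, fun i => i.elim0⟩⟩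
        · exfalso
          have := hX a b _ _ m ha hb hab hf
          omega
      · left; right
        exact mem_box1.2 ⟨hvI 0, mem_fl.2 ⟨⟨(hv 1).1, (hv 1).2⟩, h1⟩, fun i => i.elim0⟩
    · left; left
      exact mem_box1.2 ⟨mem_fl.2 ⟨⟨(hv 0).1, (hv 0).2⟩, h0⟩, hvI 1, fun i => i.elim0⟩
  have h1 := Set.ncard_le_ncard hsub (Finset.finite_toSet _)
  rw [Set.ncard_coe_finset] at h1
  refine h1.trans ((card_union_le _ _).trans (Nat.add_le_add ((card_union_le _ _).trans ?_) ?_))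
  · rw [box1_card, box1_card, hIc, hNR, fl_card]
    apply le_of_eq
    ring
  · refine card_biUnion_le.trans (sum_le_sum fun z _ => ?_)
    rw [box1_card, hIc, fl_card]
    apply le_of_eq
    ring

/-- tightness of the first common term -/
theorem TL_tight (ε : ℝ) (hε : 0 < ε) : ∃ X : ℕ, ∀ᶠ N : ℕ in atTop, ((TL X N).ncard : ℝ) / (N : ℝ) ^ 2 ≤ ε := by
  classical
  set η := ε / 4 with hη
  have hη0 : 0 < η := by positivity
  obtain ⟨Y, hY, hYa⟩ := ((reach_one η hη0).and (atoms η hη0)).exists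
  obtain ⟨l, hl⟩ := fp_dens Y (fun _ => True)
  have hl' : HasD (fun n => ∃ z, Fp Y n z) l := HasD.congr hl fun n _ => by simp
  have h1 := hY l hl'
  have hex : ∀ z : ℕ, ∃ c : ℝ, HasD (fun n => Fp Y n z) c := by
    intro z
    obtain ⟨c, hc⟩ := fp_dens Y (fun z' => z' = z)
    refine ⟨c, HasD.congr hc fun n _ => ?_⟩
    constructor
    · rintro ⟨z', h1, rfl⟩; exact h1
    · intro h1; exact ⟨z, h1, rfl⟩
  choose c hc using hex
  have hc0 : ∀ z, 0 ≤ c z := fun z => HasD.nonneg (hc z)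
  have hce : ∀ z, c z ≤ η := fun z => hYa z (c z) (hc z)
  have hsum : ∑ z ∈ range (Y + 1), c z ≤ 1 := by
    refine sum_dens_le _ (fun z n => Fp Y n z) c (fun z _ => hc z) ?_ HasD_true (fun _ _ _ _ _ => trivial)
    intro z _ z' _ hne n _ h1 h2
    exact hne (h1.unique h2)
  have hsq : ∑ z ∈ range (Y + 1), c z ^ 2 ≤ η := by
    calc ∑ z ∈ range (Y + 1), c z ^ 2 ≤ ∑ z ∈ range (Y + 1), η * c z := by
          apply sum_le_sum
          intro z _
          rw [sq]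
          exact mul_le_mul_of_nonneg_right (hce z) (hc0 z)
      _ = η * ∑ z ∈ range (Y + 1), c z := by rw [mul_sum]
      _ ≤ η * 1 := mul_le_mul_of_nonneg_left hsum hη0.le
      _ = η := mul_one η
  choose Xf hXf using fst_bdd
  refine ⟨∑ a ∈ range (Y + 1), ∑ b ∈ range (Y + 1), Xf a b, ?_⟩
  have hX : ∀ a b n n' m : ℕ, Fp Y n a → Fp Y n' b → a ≠ b → Fst n n' m →
      m ≤ ∑ a ∈ range (Y + 1), ∑ b ∈ range (Y + 1), Xf a b := by
    intro a b n n' m ha hb hab hf
    have haY : a ≤ Y := by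
      obtain ⟨_, _, h, _⟩ := ha
      exact h
    have hbY : b ≤ Y := by
      obtain ⟨_, _, h, _⟩ := hb
      exact h
    have h3 : Xf a b ≤ ∑ b ∈ range (Y + 1), Xf a b :=
      single_le_sum (f := fun b => Xf a b) (fun _ _ => Nat.zero_le _) (mem_range.2 (by omega))
    have h4 : ∑ b ∈ range (Y + 1), Xf a b ≤ ∑ a ∈ range (Y + 1), ∑ b ∈ range (Y + 1), Xf a b :=
      single_le_sum (f := fun a => ∑ b ∈ range (Y + 1), Xf a b) (fun _ _ => Nat.zero_le _) (mem_range.2 (by omega))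
    exact (hXf a b Y n n' m ha hb hab hf).trans (h3.trans h4)
  have h3 : Tendsto (fun N : ℕ => ∑ z ∈ range (Y + 1), ((cN (fun n => Fp Y n z) N : ℝ) / N) ^ 2) atTop
      (𝓝 (∑ z ∈ range (Y + 1), c z ^ 2)) := tendsto_finsetSum _ fun z _ => (hc z).pow 2
  have h4 := ((not_dens hl').const_mul 2).add h3
  have h5 : 2 * (1 - l) + ∑ z ∈ range (Y + 1), c z ^ 2 < ε := by
    have : ε = 4 * η := by rw [hη]; ring
    linarith
  filter_upwards [h4.eventually (gt_mem_nhds h5), eventually_gt_atTop 0] with N hN hN0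
  have hN1 : (0 : ℝ) < N := by exact_mod_cast hN0
  refine le_trans ?_ hN.le
  have h6 := TL_upper hX N
  have h7 : ((TL (∑ a ∈ range (Y + 1), ∑ b ∈ range (Y + 1), Xf a b) N).ncard : ℝ)
      ≤ ((2 * (cN (fun n => ¬ ∃ z, Fp Y n z) N * N) : ℕ) : ℝ)
      + ((∑ z ∈ range (Y + 1), cN (fun n => Fp Y n z) N ^ 2 : ℕ) : ℝ) := by exact_mod_cast h6
  calc _ ≤ (((2 * (cN (fun n => ¬ ∃ z, Fp Y n z) N * N) : ℕ) : ℝ)
      + ((∑ z ∈ range (Y + 1), cN (fun n => Fp Y n z) N ^ 2 : ℕ) : ℝ)) / (N : ℝ) ^ 2 :=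
        div_le_div_of_nonneg_right h7 (by positivity)
    _ = _ := by
        rw [add_div]
        congr 1
        · push_cast
          rw [mul_div_assoc', div_eq_div_iff (by positivity) (by positivity)]
          ring
        · push_cast
          rw [sum_div]
          apply sum_congr rfl
          intro z _
          rw [div_pow]

/-- **the law of the meeting point has the mass of the coalescing pairs** -/
theorem pm_sum {δ : ℕ → ℝ} (h : IsC δ) {D : ℕ → ℝ} (hD : IsD D) :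
    HasSum (pm D) (∑' r, W δ (fun _ => True) 2 r) := by
  classical
  set L := ∑' r, W δ (fun _ => True) 2 r with hL
  have hup : ∀ M : Finset ℕ, ∑ m ∈ M, pm D m ≤ L := by
    intro M
    have h1 : Tendsto (fun N : ℕ => ∑ m ∈ M, ((FS m N).ncard : ℝ) / (N : ℝ) ^ 2) atTop (𝓝 (∑ m ∈ M, pm D m)) :=
      tendsto_finsetSum _ fun m _ => FS_lim hD m
    apply le_of_forall_pos_le_add
    intro ε hε
    apply le_of_tendsto h1
    filter_upwards [SC_up h 0 (ε / 2) (by positivity)] with N hN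
    have h2 : ∑ m ∈ M, ((FS m N).ncard : ℝ) / (N : ℝ) ^ 2 ≤ ((SC 2 N).ncard : ℝ) / (N : ℝ) ^ 2 := by
      rw [← sum_div]
      apply div_le_div_of_nonneg_right _ (by positivity)
      exact_mod_cast FS_dis M N
    have h3 : ((SC 2 N).ncard : ℝ) / (N : ℝ) ^ 2 ≤ L + 2 * (ε / 2) := hN
    linarith
  have hlow : ∀ ε : ℝ, 0 < ε → ∃ X : ℕ, L - ε ≤ ∑ m ∈ range X, pm D m := by
    intro ε hε
    obtain ⟨X, hX⟩ := TL_tight (ε / 2) (by positivity)
    refine ⟨X + 1, ?_⟩
    have h1 : Tendsto (fun N : ℕ => ∑ m ∈ range (X + 1), ((FS m N).ncard : ℝ) / (N : ℝ) ^ 2) atTop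
        (𝓝 (∑ m ∈ range (X + 1), pm D m)) := tendsto_finsetSum _ fun m _ => FS_lim hD m
    apply ge_of_tendsto h1
    have h2 := low_gen h (fun _ => True) 0 (fun N => SC 2 N) (fun N => SC_fin 2 N)
      (fun N r _ _ v hv => by
        obtain ⟨b, hb⟩ := common_of_class (fun i => (hv i).2)
        exact ⟨fun i => (hv i).1, _, hb b le_rfl⟩) (ε / 2) (by positivity)
    filter_upwards [hX, h2] with N h3 h4
    have h5 : ((SC 2 N).ncard : ℝ) / (N : ℝ) ^ 2 ≤ ∑ m ∈ range (X + 1), ((FS m N).ncard : ℝ) / (N : ℝ) ^ 2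
        + ((TL X N).ncard : ℝ) / (N : ℝ) ^ 2 := by
      rw [← sum_div, ← add_div]
      apply div_le_div_of_nonneg_right _ (by positivity)
      exact_mod_cast FS_cover X N
    have h6 : L - ε / 2 ≤ ((SC 2 N).ncard : ℝ) / (N : ℝ) ^ 2 := h4
    linarith
  have hs : Summable (pm D) := summable_of_sum_range_le (c := L) (pm_nonneg hD) fun n => hup _
  have h1 : ∑' m, pm D m = L := by
    apply le_antisymm
    · exact hs.tsum_le_of_sum_range_le fun n => hup _
    · apply le_of_forall_pos_sub_le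
      intro ε hε
      obtain ⟨X, hX⟩ := hlow ε hε
      exact hX.trans (hs.sum_le_tsum _ fun m _ => pm_nonneg hD m)
  rw [← h1]
  exact hs.hasSum

end Pool.Agent.V11311.DV
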